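import Pool.Agent.Helper79.FE.FinN

set_option autoImplicit false

/-!
# Symbols with entries in a finitely generated group: finite dimension from a finite set of places
-/

namespace Pool.Agent.Helper79.HT

open scoped WithZero
open Polynomial IntermediateField Module
open Pool.Agent.TH826.MK (KQ symb unitPart)
open Pool.Agent.Helper537_Sym
open Pool.Agent.Helper79.FE (VN exists_zero fin_adj val_alg exists_extend exists_detect sy_tors_right fin_of_ker
  supp_finite)

section general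

variable {L : Type*} [Field L] {r : ℕ}

/-- the sum of the symbols -/
noncomputable def sig (f w : Fin r → Lˣ) : KQ L 2 := ∑ i, sy (f i) (w i)

theorem sig_mul (f w w' : Fin r → Lˣ) : sig f (w * w') = sig f w + sig f w' := by
  unfold sig
  rw [← Finset.sum_add_distrib]
  exact Finset.sum_congr rfl fun i _ => by rw [Pi.mul_apply, sy_mul_right]

theorem sig_one (f : Fin r → Lˣ) : sig f 1 = 0 := by
  unfold sig
  exact Finset.sum_eq_zero fun i _ => by rw [Pi.one_apply, sy_one_right]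

theorem sig_zpow (f w : Fin r → Lˣ) (k : ℤ) : sig f (w ^ k) = (k : ℚ) • sig f w := by
  unfold sig
  rw [Finset.smul_sum]
  exact Finset.sum_congr rfl fun i _ => by rw [Pi.pow_apply, sy_zpow_right]

/-- every element of the span of the symbols is a rational multiple of a sum -/
theorem span_sig (f : Fin r → Lˣ) (G : Subgroup Lˣ) (z : KQ L 2)
    (hz : z ∈ Submodule.span ℚ {z : KQ L 2 | ∃ (i : Fin r) (u : Lˣ), u ∈ G ∧ z = sy (f i) u}) :
    ∃ (q : ℚ) (w : Fin r → Lˣ), (∀ i, w i ∈ G) ∧ z = q • sig f w := by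
  classical
  induction hz using Submodule.span_induction with
  | mem x hx =>
    obtain ⟨i, u, hu, rfl⟩ := hx
    refine ⟨1, Pi.mulSingle i u, fun j => ?_, ?_⟩
    · by_cases hj : j = i
      · subst hj; rw [Pi.mulSingle_eq_same]; exact hu
      · rw [Pi.mulSingle_eq_of_ne hj]; exact one_mem _
    · rw [one_smul, sig, Finset.sum_eq_single i]
      · rw [Pi.mulSingle_eq_same]
      · intro j _ hj
        rw [Pi.mulSingle_eq_of_ne hj, sy_one_right]
      · intro h; exact absurd (Finset.mem_univ _) h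
  | zero => exact ⟨0, 1, fun _ => one_mem _, by rw [zero_smul]⟩
  | add x y _ _ hx hy =>
    obtain ⟨q, u, hu, rfl⟩ := hx
    obtain ⟨t, w, hw, rfl⟩ := hy
    refine ⟨((q.den : ℚ) * t.den)⁻¹, u ^ (q.num * t.den) * w ^ (t.num * q.den),
      fun i => mul_mem (zpow_mem (hu i) _) (zpow_mem (hw i) _), ?_⟩
    rw [sig_mul, sig_zpow, sig_zpow, smul_add, smul_smul, smul_smul]
    have hq : (q.den : ℚ) ≠ 0 := by exact_mod_cast q.den_nz
    have hr : (t.den : ℚ) ≠ 0 := by exact_mod_cast t.den_nz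
    have hq2 : (q.num : ℚ) = q * q.den := (Rat.mul_den_eq_num q).symm
    have hr2 : (t.num : ℚ) = t * t.den := (Rat.mul_den_eq_num t).symm
    congr 2
    · push_cast
      rw [hq2]
      field_simp
    · push_cast
      rw [hr2]
      field_simp
  | smul a x _ hx =>
    obtain ⟨q, u, hu, rfl⟩ := hx
    exact ⟨a * q, u, hu, by rw [smul_smul]⟩

theorem tame_sig (v : Valuation L ℤᵐ⁰) (l : Lg L) (hl : ∀ a : Lˣ, v ((a : L) - 1) < 1 → l.toFun a = 0)
    (f w : Fin r → Lˣ) (h : sig f w ∈ unitPart v 2) :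
    ∑ i, ((ord v (w i) : ℚ) * l.toFun (f i) - (ord v (f i) : ℚ) * l.toFun (w i)) = 0 := by
  rw [← tame_unitPart v l hl h, sig, map_sum]
  exact Finset.sum_congr rfl fun i _ => (tame_sy v l hl _ _).symm

/-- additive functions and powers -/
theorem lg_one (l : Lg L) : l.toFun 1 = 0 := by
  have h := l.map_mul' 1 1
  rw [one_mul] at h
  linarith

/-- additive functions as homomorphisms -/
noncomputable def lgHom (l : Lg L) : Lˣ →* Multiplicative ℚ where
  toFun a := Multiplicative.ofAdd (l.toFun a)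
  map_one' := by rw [lg_one]; rfl
  map_mul' a b := by rw [l.map_mul']; rfl

theorem lg_prod (l : Lg L) (f : Fin r → Lˣ) (m : Fin r → ℤ) :
    l.toFun (∏ i, f i ^ m i) = ∑ i, (m i : ℚ) * l.toFun (f i) := by
  have h := map_prod (lgHom l) (fun i => f i ^ m i) Finset.univ
  have h2 := congrArg Multiplicative.toAdd h
  rw [toAdd_prod] at h2
  refine Eq.trans h2 (Finset.sum_congr rfl fun i _ => ?_)
  rw [map_zpow, toAdd_zpow, zsmul_eq_mul]
  rfl

/-- the values of the first entries satisfy a multiplicative relation -/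
theorem rel_of_unram (v : Valuation L ℤᵐ⁰) (f w : Fin r → Lˣ) (hf : ∀ i, v (f i : L) = 1)
    (h : sig f w ∈ unitPart v 2) :
    ∃ k : ℕ, 0 < k ∧ v (((∏ i, f i ^ ord v (w i) : Lˣ) : L) ^ k - 1) < 1 := by
  by_contra hcon
  push Not at hcon
  set a : Lˣ := ∏ i, f i ^ ord v (w i) with ha
  obtain ⟨ψ, hψ1, hψ2⟩ := exists_detect (B := Lˣ ⧸ oneUnits v) (QuotientGroup.mk a) (by
    intro n hn
    by_contra h0
    have h1 : ((a ^ n : Lˣ) : Lˣ ⧸ oneUnits v) = 1 := hn
    rw [QuotientGroup.eq_one_iff] at h1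
    have h2 : v (((a ^ n : Lˣ) : L) - 1) < 1 := h1
    rw [Units.val_pow_eq_pow_val] at h2
    exact absurd h2 (not_lt.2 (hcon n (Nat.pos_of_ne_zero h0))))
  have hadd : ∀ x y : Lˣ, ψ (QuotientGroup.mk (x * y)) = ψ (QuotientGroup.mk x) + ψ (QuotientGroup.mk y) :=
    fun x y => hψ1 (QuotientGroup.mk x) (QuotientGroup.mk y)
  have hψ0 : ψ (QuotientGroup.mk 1) = 0 := by
    have := hadd 1 1
    rw [one_mul] at this
    linarith
  let l : Lg L := ⟨fun x => ψ (QuotientGroup.mk x), hadd⟩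
  have hl : ∀ x : Lˣ, v ((x : L) - 1) < 1 → l.toFun x = 0 := by
    intro x hx
    have h1 : (x : Lˣ ⧸ oneUnits v) = ((1 : Lˣ) : Lˣ ⧸ oneUnits v) := (QuotientGroup.eq_one_iff x).2 hx
    show ψ (QuotientGroup.mk x) = 0
    rw [h1]
    exact hψ0
  have h1 := tame_sig v l hl f w h
  have h2 : l.toFun a = 1 := hψ2
  have h3 : ∑ i, (ord v (w i) : ℚ) * l.toFun (f i) = 0 := by
    rw [← h1]
    refine Finset.sum_congr rfl fun i _ => ?_
    rw [ord_of_one (hf i)]
    simp
  rw [ha, lg_prod, h3] at h2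
  exact zero_ne_one h2

end general

variable {N E : Type*} [Field N] [CharZero N] [Field E] [Algebra N E] {r : ℕ}

omit [CharZero N] in
/-- the constants are detected by the one-units -/
theorem const_one {v : Valuation E ℤᵐ⁰} (hv : v ∈ VN N E) {c : Eˣ} (hc : IsAlgebraic N (c : E))
    (h : v ((c : E) - 1) < 1) : c = 1 := by
  by_contra hne
  have h1 : (c : E) - 1 ≠ 0 := fun h0 => hne (Units.ext (sub_eq_zero.1 h0))
  rw [val_alg hv h1 (hc.sub isAlgebraic_one)] at h
  exact lt_irrefl _ h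

/-- the group of the constants -/
noncomputable def Cst (N E : Type*) [Field N] [Field E] [Algebra N E] : Subgroup Eˣ where
  carrier := {c | IsAlgebraic N (c : E)}
  one_mem' := by
    show IsAlgebraic N ((1 : Eˣ) : E)
    rw [Units.val_one]
    exact isAlgebraic_one
  mul_mem' := fun {a b} ha hb => by
    show IsAlgebraic N ((a * b : Eˣ) : E)
    rw [Units.val_mul]
    exact IsAlgebraic.mul ha hb
  inv_mem' := fun {a} ha => by
    show IsAlgebraic N ((a⁻¹ : Eˣ) : E)
    rw [Units.val_inv_eq_inv_val]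
    exact IsAlgebraic.inv ha

/-- constant entries of an unramified sum are torsion -/
theorem const_tors (x : E) (hx : Transcendental N x) [FiniteDimensional N⟮x⟯ E] (f : Fin r → Eˣ)
    (hf : ∀ m : Fin r → ℤ, IsAlgebraic N ((∏ i, f i ^ m i : Eˣ) : E) → m = 0) (w : Fin r → Eˣ)
    (hw : ∀ v ∈ VN N E, ∀ i, v (w i : E) = 1) (h : sig f w ∈ ⨅ v ∈ VN N E, unitPart v 2) (i : Fin r) :
    ∃ n : ℕ, 0 < n ∧ w i ^ n = 1 := by
  classical
  have hexz : ∀ u : Eˣ, (∀ v ∈ VN N E, v (u : E) = 1) → IsAlgebraic N (u : E) := by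
    intro u hu
    by_contra htr
    have : FiniteDimensional N⟮(u : E)⟯ E := fin_adj x u hx htr
    obtain ⟨v, hv, hlt⟩ := exists_zero (u : E) htr
    rw [hu v hv] at hlt
    exact lt_irrefl _ hlt
  have halg : ∀ j, IsAlgebraic N (w j : E) := fun j => hexz (w j) fun v hv => hw v hv j
  by_contra hcon
  push Not at hcon
  obtain ⟨ψ, hψ1, hψ2⟩ := exists_detect (w i) (by
    intro n hn
    by_contra h0
    exact hcon n (Nat.pos_of_ne_zero h0) hn)
  -- orthogonality
  have horth : ∀ v ∈ VN N E, ∑ j, (ord v (f j) : ℚ) * ψ (w j) = 0 := by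
    intro v hv
    let φ : Cst N E →* Eˣ ⧸ oneUnits v := (QuotientGroup.mk' (oneUnits v)).comp (Cst N E).subtype
    have hφ : Function.Injective φ := by
      rw [injective_iff_map_eq_one]
      intro c hc
      have h1 : ((c : Eˣ) : Eˣ ⧸ oneUnits v) = 1 := hc
      rw [QuotientGroup.eq_one_iff] at h1
      exact Subtype.ext (const_one hv c.2 h1)
    obtain ⟨χ, hχ1, hχ2⟩ := exists_extend (A := Cst N E) (B := Eˣ ⧸ oneUnits v) φ hφ (fun c => ψ (c : Eˣ))
      (fun a b => hψ1 _ _)
    have hadd : ∀ x y : Eˣ, χ (QuotientGroup.mk (x * y)) = χ (QuotientGroup.mk x) + χ (QuotientGroup.mk y) :=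
      fun x y => hχ1 (QuotientGroup.mk x) (QuotientGroup.mk y)
    have hχ0 : χ (QuotientGroup.mk 1) = 0 := by
      have := hadd 1 1
      rw [one_mul] at this
      linarith
    let l : Lg E := ⟨fun x => χ (QuotientGroup.mk x), hadd⟩
    have hl : ∀ x : Eˣ, v ((x : E) - 1) < 1 → l.toFun x = 0 := by
      intro x hx
      have h1 : (x : Eˣ ⧸ oneUnits v) = ((1 : Eˣ) : Eˣ ⧸ oneUnits v) := (QuotientGroup.eq_one_iff x).2 hx
      show χ (QuotientGroup.mk x) = 0
      rw [h1]
      exact hχ0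
    have hmem : sig f w ∈ unitPart v 2 := by
      have := (Submodule.mem_iInf _).1 h v
      exact (Submodule.mem_iInf _).1 this hv
    have h1 := tame_sig v l hl f w hmem
    have h2 : ∀ j, l.toFun (w j) = ψ (w j) := fun j => hχ2 ⟨w j, halg j⟩
    have h3 : ∑ j, ((ord v (w j) : ℚ) * l.toFun (f j) - (ord v (f j) : ℚ) * l.toFun (w j)) =
        -∑ j, (ord v (f j) : ℚ) * ψ (w j) := by
      rw [← Finset.sum_neg_distrib]
      refine Finset.sum_congr rfl fun j _ => ?_
      rw [ord_of_one (hw v hv j), h2]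
      simp
    rw [h3, neg_eq_zero] at h1
    exact h1
  -- an integral vector
  let den : ℕ := ∏ j, (ψ (w j)).den
  have hden : den ≠ 0 := Finset.prod_ne_zero_iff.2 fun j _ => (ψ (w j)).den_nz
  have hint : ∀ j, ∃ m : ℤ, (m : ℚ) = den * ψ (w j) := by
    intro j
    obtain ⟨c, hc⟩ : (ψ (w j)).den ∣ den := Finset.dvd_prod_of_mem _ (Finset.mem_univ j)
    refine ⟨c * (ψ (w j)).num, ?_⟩
    rw [hc]
    push_cast
    rw [mul_comm ((ψ (w j)).den : ℚ), mul_assoc, mul_comm ((ψ (w j)).den : ℚ), Rat.mul_den_eq_num]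
  choose m hm using hint
  have hm0 : m = 0 := by
    refine hf m (hexz _ fun v hv => ?_)
    have h1 : ord v (∏ j, f j ^ m j) = ∑ j, m j * ord v (f j) := by
      let lo : Lg E := ⟨fun a => (ord v a : ℚ), fun a b => by rw [ord_mul, Int.cast_add]⟩
      have h2 := lg_prod lo f m
      have h3 : ((ord v (∏ j, f j ^ m j) : ℤ) : ℚ) = ((∑ j, m j * ord v (f j) : ℤ) : ℚ) := by
        push_cast
        exact h2
      exact_mod_cast h3
    refine ord_eq_zero ?_
    rw [h1]
    have h2 : ((∑ j, m j * ord v (f j) : ℤ) : ℚ) = 0 := by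
      push_cast
      have h3 := horth v hv
      calc ∑ j, (m j : ℚ) * (ord v (f j) : ℚ) = den * ∑ j, (ord v (f j) : ℚ) * ψ (w j) := by
            rw [Finset.mul_sum]
            refine Finset.sum_congr rfl fun j _ => ?_
            rw [hm j]
            ring
        _ = 0 := by rw [h3, mul_zero]
    exact_mod_cast h2
  have h1 := hm i
  rw [hm0, hψ2] at h1
  simp only [Pi.zero_apply, Int.cast_zero, mul_one] at h1
  exact hden (by exact_mod_cast h1.symm)

/-- finite dimension from a finite set of places -/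
theorem fin_multi (x : E) (hx : Transcendental N x) [FiniteDimensional N⟮x⟯ E] (f : Fin r → Eˣ)
    (hf : ∀ m : Fin r → ℤ, IsAlgebraic N ((∏ i, f i ^ m i : Eˣ) : E) → m = 0) (G : Subgroup Eˣ)
    (T : Set (Valuation E ℤᵐ⁰)) (hT : T.Finite)
    (hmain : ∀ w : Fin r → Eˣ, (∀ i, w i ∈ G) → sig f w ∈ (⨅ v ∈ VN N E, unitPart v 2) →
      ∀ v ∈ VN N E, v ∉ T → ∀ i, v (w i : E) = 1) :
    FiniteDimensional ℚ ↥(Submodule.span ℚ {z : KQ E 2 | ∃ (i : Fin r) (u : Eˣ), u ∈ G ∧ z = sy (f i) u} ⊓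
      ⨅ v ∈ VN N E, unitPart v 2) := by
  classical
  have hTf : Finite T := hT
  let A : Subgroup (Fin r → Eˣ) :=
    { carrier := {w | (∀ i, w i ∈ G) ∧ sig f w ∈ (⨅ v ∈ VN N E, unitPart v 2)}
      one_mem' := ⟨fun _ => one_mem _, by rw [sig_one]; exact Submodule.zero_mem _⟩
      mul_mem' := fun {a b} ha hb => ⟨fun i => mul_mem (ha.1 i) (hb.1 i), by
        rw [sig_mul]; exact Submodule.add_mem _ ha.2 hb.2⟩
      inv_mem' := fun {a} ha => ⟨fun i => inv_mem (ha.1 i), by
        have h1 := sig_zpow f a (-1)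
        rw [zpow_neg_one] at h1
        rw [h1]
        exact Submodule.smul_mem _ _ ha.2⟩ }
  let F : Additive A →+ KQ E 2 :=
    { toFun := fun u => sig f (u.toMul : Fin r → Eˣ)
      map_zero' := sig_one f
      map_add' := fun a b => sig_mul f _ _ }
  let g : Additive A →+ (T × Fin r → ℚ) :=
    { toFun := fun u t => ((ord t.1.1 ((u.toMul : Fin r → Eˣ) t.2) : ℤ) : ℚ)
      map_zero' := by
        funext t
        show ((ord t.1.1 (((1 : A) : Fin r → Eˣ) t.2) : ℤ) : ℚ) = 0
        rw [Subgroup.coe_one, Pi.one_apply, ord_of_one (by rw [Units.val_one, map_one]), Int.cast_zero]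
      map_add' := fun a b => by
        funext t
        show ((ord t.1.1 (((a.toMul * b.toMul : A) : Fin r → Eˣ) t.2) : ℤ) : ℚ) = _
        rw [Subgroup.coe_mul, Pi.mul_apply, ord_mul, Int.cast_add]
        rfl }
  have hfin := fin_of_ker F g (by
    intro a ha
    set w : Fin r → Eˣ := (a.toMul : Fin r → Eˣ) with hw
    have hmem : w ∈ A := a.toMul.2
    have hval : ∀ v ∈ VN N E, ∀ i, v (w i : E) = 1 := by
      intro v hv i
      by_cases hvT : v ∈ T
      · have h1 : ((ord v (w i) : ℤ) : ℚ) = 0 := congrFun ha (⟨v, hvT⟩, i)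
        exact ord_eq_zero (by exact_mod_cast h1)
      · exact hmain w hmem.1 hmem.2 v hv hvT i
    show sig f w = 0
    refine Finset.sum_eq_zero fun i _ => ?_
    obtain ⟨n, hn, h1⟩ := const_tors x hx f hf w hval hmem.2 i
    exact sy_tors_right (f i) (w i) n hn h1)
  refine Submodule.finiteDimensional_of_le (S₂ := Submodule.span ℚ (Set.range F)) ?_
  rintro z ⟨h1, h2⟩
  obtain ⟨q, w, hw, rfl⟩ := span_sig f G z h1
  by_cases hq : q = 0
  · rw [hq, zero_smul]; exact Submodule.zero_mem _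
  · refine Submodule.smul_mem _ _ (Submodule.subset_span ⟨Additive.ofMul ⟨w, hw, ?_⟩, rfl⟩)
    have h3 := (⨅ v ∈ VN N E, unitPart v 2).smul_mem q⁻¹ h2
    rwa [smul_smul, inv_mul_cancel₀ hq, one_smul] at h3

end Pool.Agent.Helper79.HT
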