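import Pool.Agent.Helper79.HT.Tfin
import Pool.Agent.Helper79.HT.Fdim

set_option autoImplicit false

/-!
# Function fields over algebraic extensions of the rational numbers

The results of `Tfin` and `Fin` for all fields of constants which are algebraic over `ℚ`, with a bound for the
degree of the value of one function.
-/

namespace Pool.Agent.Helper79.HT

open scoped WithZero IntermediateField.algebraAdjoinAdjoin
open Polynomial IntermediateField Module
open Pool.Agent.Helper259.AbsHt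
open Pool.Agent.TH826.MK (KQ symb unitPart)
open Pool.Agent.Helper537_Sym
open Pool.Agent.Helper79.FE (VN exists_zero finite_zeros fin_adj val_alg trans_inv supp_finite)

variable {K L : Type*} [Field K] [Field L] [Algebra K L]

/-- the value of `x` at `v` is infinite or an algebraic number of degree at most `D` -/
def ValLE (K : Type*) {L : Type*} [Field K] [CharZero K] [Field L] [Algebra K L] (x : L) (D : ℕ)
    (v : Valuation L ℤᵐ⁰) : Prop :=
  1 < v x ∨ ∃ Q : ℚ[X], Q.Monic ∧ Q.natDegree ≤ D ∧ v (aeval x (Q.map (algebraMap ℚ K))) < 1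

/-- the residue fields are algebraic -/
theorem res_alg [CharZero K] (x : L) (hx : Transcendental K x) [FiniteDimensional K⟮x⟯ L] {v : Valuation L ℤᵐ⁰}
    (hv : v ∈ VN K L) (a : L) (ha : v a ≤ 1) : ∃ Q : K[X], Q.Monic ∧ v (aeval a Q) < 1 := by
  by_cases h : IsAlgebraic K a
  · refine ⟨minpoly K a, minpoly.monic h.isIntegral, ?_⟩
    rw [minpoly.aeval, map_zero]
    exact zero_lt_one
  · have hfd : FiniteDimensional K⟮a⟯ L := fin_adj x a hx h
    by_contra hcon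
    push Not at hcon
    have h1 : ∀ Q : K[X], Q ≠ 0 → v (aeval a Q) = 1 := by
      intro Q hQ
      have hle : v (aeval a Q) ≤ 1 := aeval_mem hv ⟨a, ha⟩ Q
      have hge := hcon (Q * C Q.leadingCoeff⁻¹) (monic_mul_leadingCoeff_inv hQ)
      rw [map_mul, aeval_C, map_mul, hv.2 _ (inv_ne_zero (leadingCoeff_ne_zero.2 hQ)), mul_one] at hge
      exact le_antisymm hle hge
    have hv' : v ∈ VN K⟮a⟯ L := by
      refine ⟨hv.1, fun z hz => ?_⟩
      obtain ⟨r, s, hrs⟩ := (IntermediateField.mem_adjoin_simple_iff K (z : L)).1 z.2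
      have hz' : (z : L) ≠ 0 := fun h0 => hz (Subtype.ext h0)
      have hr : r ≠ 0 := by
        rintro rfl
        rw [map_zero, zero_div] at hrs
        exact hz' hrs
      have hs : s ≠ 0 := by
        rintro rfl
        rw [map_zero, div_zero] at hrs
        exact hz' hrs
      show v (z : L) = 1
      rw [hrs, map_div₀, h1 r hr, h1 s hs, div_one]
    obtain ⟨w, hw⟩ := hv.1 (WithZero.exp (1 : ℤ))
    have hw0 : w ≠ 0 := by
      rintro rfl
      rw [map_zero] at hw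
      exact WithZero.exp_ne_zero hw.symm
    have h2 := val_alg hv' hw0 (Algebra.IsAlgebraic.isAlgebraic w)
    rw [hw] at h2
    have h3 : (WithZero.exp (1 : ℤ)) = WithZero.exp (0 : ℤ) := by rw [h2, WithZero.exp_zero]
    exact absurd (WithZero.exp_injective h3) one_ne_zero

theorem exists_plc_alg (σ : K →+* Qbar) {v : Valuation L ℤᵐ⁰} (hv : v ∈ VN K L)
    (hD : ∀ a : L, v a ≤ 1 → ∃ Q : K[X], Q.Monic ∧ v (aeval a Q) < 1) :
    Nonempty (Plc σ hv) := by
  classical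
  let κ := IsLocalRing.ResidueField v.valuationSubring
  let res : v.valuationSubring →+* κ := IsLocalRing.residue _
  let _ : Algebra K κ := (res.comp (iK hv)).toAlgebra
  let _ : Algebra K Qbar := σ.toAlgebra
  have hker : ∀ y : v.valuationSubring, res y = 0 ↔ v (y : L) < 1 := by
    intro y
    rw [IsLocalRing.residue_eq_zero_iff, IsLocalRing.mem_maximalIdeal, mem_nonunits_iff]
    have hy : v (y : L) ≤ 1 := y.2
    constructor
    · intro h
      refine lt_of_le_of_ne hy fun h1 => h ?_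
      have hy0 : (y : L) ≠ 0 := by
        intro h0
        rw [h0, map_zero] at h1
        exact zero_ne_one h1
      have hinv : v ((y : L)⁻¹) ≤ 1 := by rw [map_inv₀, h1, inv_one]
      exact IsUnit.of_mul_eq_one (⟨(y : L)⁻¹, hinv⟩ : v.valuationSubring) (Subtype.ext (mul_inv_cancel₀ hy0))
    · intro h hu
      obtain ⟨u, hu⟩ := hu
      have h1 : v (u : L) * v ((u⁻¹ : v.valuationSubringˣ) : L) = 1 := by
        rw [← map_mul]
        have h2 : ((u : v.valuationSubring) : L) * ((u⁻¹ : v.valuationSubringˣ) : v.valuationSubring) = 1 := by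
          have h3 := congrArg (fun z : v.valuationSubring => (z : L)) (u.mul_inv)
          exact h3
        rw [h2, map_one]
      have h2 : v ((u⁻¹ : v.valuationSubringˣ) : L) ≤ 1 := (u⁻¹ : v.valuationSubringˣ).1.2
      rw [hu] at h1
      have h3 : v (y : L) * v ((u⁻¹ : v.valuationSubringˣ) : L) ≤ v (y : L) * 1 := mul_le_mul_right h2 _
      rw [h1, mul_one] at h3
      exact absurd h (not_lt.2 h3)
  have hev : ∀ (a : v.valuationSubring) (P : K[X]),
      ((eval₂ (iK hv) a P : v.valuationSubring) : L) = aeval (a : L) P := by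
    intro a P
    have h := hom_eval₂ P (iK hv) v.valuationSubring.subtype a
    exact h
  have halg : Algebra.IsAlgebraic K κ := by
    constructor
    intro y
    obtain ⟨a, rfl⟩ := IsLocalRing.residue_surjective y
    obtain ⟨Q, hQ, h⟩ := hD a a.2
    refine ⟨Q, hQ.ne_zero, ?_⟩
    have h1 : aeval (res a) Q = res (eval₂ (iK hv) a Q) := by
      rw [hom_eval₂]
      rfl
    show aeval (res a) Q = 0
    rw [h1, hker, hev]
    exact h
  let φ : κ →ₐ[K] Qbar := IsAlgClosed.lift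
  refine ⟨⟨(φ : κ →+* Qbar).comp res, fun y => ?_, fun c => ?_⟩⟩
  · rw [← hker]
    exact map_eq_zero_iff _ (φ : κ →+* Qbar).injective
  · exact φ.commutes c


/-- Northcott's theorem for the places -/
theorem north_alg [CharZero K] (σ : K →+* Qbar) (x : L) (hx : Transcendental K x) [FiniteDimensional K⟮x⟯ L]
    (D : ℕ) (B : ℝ) : {v : Valuation L ℤᵐ⁰ | ∃ (hv : v ∈ VN K L) (hx1 : x ∈ v.valuationSubring) (p : Plc σ hv),
      (∃ Q : ℚ[X], Q.Monic ∧ Q.natDegree ≤ D ∧ v (aeval x (Q.map (algebraMap ℚ K))) < 1) ∧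
        Hh (p.ρ ⟨x, hx1⟩) ≤ B}.Finite := by
  classical
  have hfin := Pool.Agent.H58W.northcott D B
  refine Set.Finite.subset (hfin.biUnion
    (t := fun β => {v ∈ VN K L | v (aeval x ((minpoly ℚ β).map (algebraMap ℚ K))) < 1}) fun β hβ => ?_) ?_
  · refine zeros_fin x hx _ fun h0 => ?_
    have hint : IsIntegral ℚ β := ((AlgebraicClosure.isAlgebraic ℚ).isAlgebraic β).isIntegral
    refine hx ⟨_, ?_, h0⟩
    exact (Polynomial.map_ne_zero_iff (algebraMap ℚ K).injective).2 (minpoly.ne_zero hint)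
  · rintro v ⟨hv, hx1, p, ⟨Q, hQ, hQD, h1⟩, hB⟩
    have hmain : ∀ Q : ℚ[X], aeval (p.ρ ⟨x, hx1⟩) Q = 0 ↔ v (aeval x (Q.map (algebraMap ℚ K))) < 1 := by
      intro Q
      have h1 := plc_aeval p ⟨x, hx1⟩ (Q.map (algebraMap ℚ K)) (aeval_mem hv ⟨x, hx1⟩ _)
      have h2 := p.ker ⟨_, aeval_mem hv ⟨x, hx1⟩ (Q.map (algebraMap ℚ K))⟩
      rw [h1, eval₂_map] at h2
      rw [← h2, aeval_def]
      have h3 : σ.comp (algebraMap ℚ K) = algebraMap ℚ Qbar := Subsingleton.elim _ _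
      rw [h3]
    rw [Set.mem_iUnion₂]
    refine ⟨p.ρ ⟨x, hx1⟩, ⟨?_, hB⟩, hv, (hmain _).1 (minpoly.aeval ℚ _)⟩
    exact (natDegree_le_natDegree (minpoly.min ℚ _ hQ ((hmain Q).2 h1))).trans hQD

/-- finiteness of the places of bounded degree with a multiplicative relation -/
theorem T_finite_alg [CharZero K] [Algebra.IsAlgebraic ℚ K] (x : L) (hx : Transcendental K x) [FiniteDimensional K⟮x⟯ L] {r : ℕ}
    (f : Fin r → Lˣ) (hf : ∀ m : Fin r → ℤ, IsAlgebraic K ((∏ i, f i ^ m i : Lˣ) : L) → m = 0) (D : ℕ) :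
    {v : Valuation L ℤᵐ⁰ | v ∈ VN K L ∧ ValLE K x D v ∧ (∀ i, v (f i : L) = 1) ∧
      ∃ (m : Fin r → ℤ) (k : ℕ), m ≠ 0 ∧ 0 < k ∧ v (((∏ i, f i ^ m i : Lˣ) : L) ^ k - 1) < 1}.Finite := by
  classical
  let σ : K →+* Qbar := (IsAlgClosed.lift : K →ₐ[ℚ] Qbar)
  set n := finrank K⟮x⟯ L with hn
  -- the upper bounds
  have hup : ∀ i, ∃ (C : ℝ) (N : ℕ) (Z : Set (Valuation L ℤᵐ⁰)), 0 ≤ C ∧ Z.Finite ∧
      ∀ (v : Valuation L ℤᵐ⁰) (hv : v ∈ VN K L), v ∉ Z →
      ∀ (p : Plc σ hv) (ha1 : (f i : L) ∈ v.valuationSubring) (hb1 : x ∈ v.valuationSubring),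
        Hh (p.ρ ⟨(f i : L), ha1⟩) ≤ C + N * Hh (p.ρ ⟨x, hb1⟩) := by
    intro i
    obtain ⟨R, hR0, -, hR⟩ := exists_rel (K := K) x (f i : L)
    obtain ⟨C, Z, hC, hZ, h⟩ := rel_ht σ x hx (f i : L) x hx R hR0 hR
      (∑ j ∈ Finset.range (R.natDegree + 1), (R.coeff j).natDegree) (fun j => by
        by_cases hj : j < R.natDegree + 1
        · exact Finset.single_le_sum (f := fun j => (R.coeff j).natDegree) (fun _ _ => Nat.zero_le _)
            (Finset.mem_range.2 hj)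
        · rw [coeff_eq_zero_of_natDegree_lt (by omega), natDegree_zero]
          exact Nat.zero_le _)
    exact ⟨C, _, Z, hC, hZ, h⟩
  choose Cu Nu Zu hCu hZu hup using hup
  obtain ⟨Q, hQ⟩ := bmz r (∑ i, Cu i) (∑ i, (Nu i : ℝ)) n (Finset.sum_nonneg fun i _ => hCu i)
    (Finset.sum_nonneg fun i _ => Nat.cast_nonneg _) (Nat.cast_nonneg _)
  -- the lower bounds
  have hlow : ∀ a : Fin r → ℤ, a ≠ 0 → ∃ (C : ℝ) (Z : Set (Valuation L ℤᵐ⁰)), 0 ≤ C ∧ Z.Finite ∧
      ∀ (v : Valuation L ℤᵐ⁰) (hv : v ∈ VN K L), v ∉ Z →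
      ∀ (p : Plc σ hv) (ha1 : x ∈ v.valuationSubring)
        (hb1 : ((∏ i, f i ^ a i : Lˣ) : L) ∈ v.valuationSubring),
        Hh (p.ρ ⟨x, ha1⟩) ≤ C + n * Hh (p.ρ ⟨((∏ i, f i ^ a i : Lˣ) : L), hb1⟩) := by
    intro a ha
    obtain ⟨R, hR0, hRn, hR⟩ := exists_rel (K := K) x ((∏ i, f i ^ a i : Lˣ) : L)
    obtain ⟨R', hR'0, hR'n, hR'⟩ := swap_rel x _ R hR0 hR
    exact rel_ht σ x hx x _ (fun h => ha (hf a h)) R' hR'0 hR' n fun k => (hR'n k).trans hRn
  choose! Cl Zl hCl hZl hlow using hlow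
  -- the box
  have hbox : {a : Fin r → ℤ | a ≠ 0 ∧ ∀ i, |a i| ≤ Q}.Finite := by
    refine Set.Finite.subset (Set.Finite.pi' (t := fun _ : Fin r => Set.Icc (-(Q : ℤ)) Q)
      fun _ => Set.finite_Icc _ _) ?_
    rintro a ⟨-, h⟩ i
    exact abs_le.1 (h i)
  obtain ⟨Ca, hCa⟩ : ∃ Ca : ℝ, ∀ a ∈ {a : Fin r → ℤ | a ≠ 0 ∧ ∀ i, |a i| ≤ Q}, Cl a ≤ Ca := by
    obtain ⟨Ca, h⟩ := (hbox.image Cl).bddAbove
    exact ⟨Ca, fun a ha => h ⟨a, ha, rfl⟩⟩
  obtain ⟨B, hB⟩ := hQ Ca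
  -- the finite sets
  have hxinv : {v ∈ VN K L | v x⁻¹ < 1}.Finite := zeros_fin x hx _ (inv_ne_zero (by
    rintro rfl
    exact hx isAlgebraic_zero))
  refine Set.Finite.subset ((hxinv.union (Set.finite_iUnion hZu)).union
    ((hbox.biUnion fun a ha => hZl a ha.1).union (north_alg σ x hx D B))) ?_
  rintro v ⟨hv, hD, hf1, m, k, hm, hk, hmk⟩
  by_contra hcon
  simp only [Set.mem_union, not_or] at hcon
  obtain ⟨⟨h1, h2⟩, h3, h4⟩ := hcon
  have hx1 : x ∈ v.valuationSubring := by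
    show v x ≤ 1
    by_contra hlt
    apply h1
    refine ⟨hv, ?_⟩
    rw [map_inv₀]
    exact inv_lt_one_of_one_lt₀ (not_le.1 hlt)
  obtain ⟨p⟩ := exists_plc_alg σ hv (res_alg x hx hv)
  have hfm : ∀ i, (f i : L) ∈ v.valuationSubring := fun i => (hf1 i).le
  have hprod1 : ∀ a : Fin r → ℤ, v ((∏ i, f i ^ a i : Lˣ) : L) = 1 := by
    intro a
    rw [Units.coe_prod, map_prod]
    refine Finset.prod_eq_one fun i _ => ?_
    rw [Units.val_zpow_eq_zpow_val, map_zpow₀, hf1 i, one_zpow]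
  have hρne : ∀ i, p.ρ ⟨(f i : L), hfm i⟩ ≠ 0 := by
    intro i h0
    rw [p.ker] at h0
    exact absurd (hf1 i) h0.ne
  -- values of the products
  have hinv : ∀ i, ((f i : L)⁻¹) ∈ v.valuationSubring := by
    intro i
    show v ((f i : L)⁻¹) ≤ 1
    rw [map_inv₀, hf1 i, inv_one]
  let u : Fin r → v.valuationSubringˣ := fun i =>
    ⟨⟨(f i : L), hfm i⟩, ⟨(f i : L)⁻¹, hinv i⟩, Subtype.ext (mul_inv_cancel₀ (f i).ne_zero),
      Subtype.ext (inv_mul_cancel₀ (f i).ne_zero)⟩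
  have hu : ∀ i, Units.map (v.valuationSubring.subtype : v.valuationSubring →* L) (u i) = f i := fun i => Units.ext rfl
  have hρprod : ∀ (a : Fin r → ℤ) (h : ((∏ i, f i ^ a i : Lˣ) : L) ∈ v.valuationSubring),
      p.ρ ⟨((∏ i, f i ^ a i : Lˣ) : L), h⟩ = ∏ i, (p.ρ ⟨(f i : L), hfm i⟩) ^ a i := by
    intro a h
    have e1 : (⟨((∏ i, f i ^ a i : Lˣ) : L), h⟩ : v.valuationSubring) = ((∏ i, u i ^ a i : v.valuationSubringˣ) : v.valuationSubring) := by
      apply Subtype.ext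
      have e2 : Units.map (v.valuationSubring.subtype : v.valuationSubring →* L) (∏ i, u i ^ a i) = ∏ i, f i ^ a i := by
        rw [map_prod]
        refine Finset.prod_congr rfl fun i _ => ?_
        rw [map_zpow, hu]
      exact (congrArg Units.val e2).symm
    rw [e1]
    have e3 : p.ρ ((∏ i, u i ^ a i : v.valuationSubringˣ) : v.valuationSubring) =
        ((Units.map (p.ρ : v.valuationSubring →* Qbar) (∏ i, u i ^ a i) : Qbarˣ) : Qbar) := rfl
    rw [e3, map_prod, Units.coe_prod]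
    refine Finset.prod_congr rfl fun i _ => ?_
    rw [map_zpow, Units.val_zpow_eq_zpow_val]
    rfl
  apply h4
  refine ⟨hv, hx1, p, hD.resolve_left (not_lt.2 hx1), hB (p.ρ ⟨x, hx1⟩) (fun i => p.ρ ⟨(f i : L), hfm i⟩) hρne (fun i => ?_)
    (fun a ha haQ => ?_) m k hm hk ?_⟩
  · have h5 := hup i v hv (fun h => h2 (Set.mem_iUnion.2 ⟨i, h⟩)) p (hfm i) hx1
    refine h5.trans (add_le_add ?_ (mul_le_mul_of_nonneg_right ?_ (Hh_nonneg _)))
    · exact Finset.single_le_sum (fun i _ => hCu i) (Finset.mem_univ i)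
    · exact Finset.single_le_sum (f := fun i => (Nu i : ℝ)) (fun i _ => Nat.cast_nonneg _) (Finset.mem_univ i)
  · have h5 := hlow a ha v hv (fun h => h3 (Set.mem_iUnion₂.2 ⟨a, ⟨ha, haQ⟩, h⟩)) p hx1 (hprod1 a).le
    have h7 : p.ρ ⟨((∏ i, f i ^ a i : Lˣ) : L), (hprod1 a).le⟩ = ∏ i, (p.ρ ⟨(f i : L), hfm i⟩) ^ a i :=
      hρprod a (hprod1 a).le
    have h6 := hCa a ⟨ha, haQ⟩
    rw [← h7]
    linarith
  · have hmem : ((∏ i, f i ^ m i : Lˣ) : L) ^ k - 1 ∈ v.valuationSubring := hmk.le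
    have h5 := (p.ker ⟨_, hmem⟩).2 hmk
    have h6 : (⟨((∏ i, f i ^ m i : Lˣ) : L) ^ k - 1, hmem⟩ : v.valuationSubring) =
        ⟨((∏ i, f i ^ m i : Lˣ) : L), (hprod1 m).le⟩ ^ k - 1 := rfl
    have h7 : p.ρ ⟨((∏ i, f i ^ m i : Lˣ) : L), (hprod1 m).le⟩ = ∏ i, (p.ρ ⟨(f i : L), hfm i⟩) ^ m i :=
      hρprod m (hprod1 m).le
    rw [h6, map_sub, map_pow, map_one, sub_eq_zero] at h5
    rw [← h7]
    exact h5


/-- the functions with bounded values of `x` at the zeros and poles -/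
def BsX (K : Type*) {L : Type*} [Field K] [CharZero K] [Field L] [Algebra K L] (x : L) (D : ℕ) : Subgroup Lˣ where
  carrier := {u | ∀ v ∈ VN K L, v (u : L) ≠ 1 → ValLE K x D v}
  one_mem' := fun v _ h => absurd (by rw [Units.val_one, map_one]) h
  mul_mem' := fun {a b} ha hb v hv h => by
    by_cases h1 : v (a : L) = 1
    · by_cases h2 : v (b : L) = 1
      · exact absurd (by rw [Units.val_mul, map_mul, h1, h2, one_mul]) h
      · exact hb v hv h2
    · exact ha v hv h1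
  inv_mem' := fun {a} ha v hv h => by
    refine ha v hv fun h1 => h ?_
    rw [Units.val_inv_eq_inv_val, map_inv₀, h1, inv_one]

theorem fin_alg [CharZero K] [Algebra.IsAlgebraic ℚ K] (x : L) (hx : Transcendental K x)
    [FiniteDimensional K⟮x⟯ L] {r : ℕ}
    (f : Fin r → Lˣ) (hf : ∀ m : Fin r → ℤ, IsAlgebraic K ((∏ i, f i ^ m i : Lˣ) : L) → m = 0) (D : ℕ) :
    FiniteDimensional ℚ ↥(Submodule.span ℚ {z : KQ L 2 | ∃ (i : Fin r) (u : Lˣ), u ∈ BsX K x D ∧ z = sy (f i) u} ⊓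
      ⨅ v ∈ VN K L, unitPart v 2) := by
  classical
  refine fin_multi x hx f hf (BsX K x D)
    ({v : Valuation L ℤᵐ⁰ | v ∈ VN K L ∧ ValLE K x D v ∧ (∀ i, v (f i : L) = 1) ∧
      ∃ (m : Fin r → ℤ) (k : ℕ), m ≠ 0 ∧ 0 < k ∧ v (((∏ i, f i ^ m i : Lˣ) : L) ^ k - 1) < 1} ∪
      ⋃ i, {v ∈ VN K L | v (f i : L) ≠ 1})
    ((T_finite_alg x hx f hf D).union (Set.finite_iUnion fun i => supp_finite x hx _ (f i).ne_zero)) ?_
  intro w hw hsum v hv hvT i
  rw [Set.mem_union, not_or] at hvT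
  obtain ⟨h1, h2⟩ := hvT
  have hf1 : ∀ i, v (f i : L) = 1 := by
    intro i
    by_contra hne
    exact h2 (Set.mem_iUnion.2 ⟨i, hv, hne⟩)
  have hmem : sig f w ∈ unitPart v 2 := by
    have := (Submodule.mem_iInf _).1 hsum v
    exact (Submodule.mem_iInf _).1 this hv
  by_contra hne
  apply h1
  obtain ⟨k, hk, h3⟩ := rel_of_unram v f w hf1 hmem
  refine ⟨hv, hw i v hv hne, hf1, fun i => ord v (w i), k, fun h0 => hne ?_, hk, h3⟩
  exact ord_eq_zero (congrFun h0 i)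

end Pool.Agent.Helper79.HT
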