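import Pool.Agent.Helper79.HT.Ht

set_option autoImplicit false

/-!
# Points with a multiplicative relation have bounded height
-/

namespace Pool.Agent.Helper79.HT

open Pool.Agent.Helper259.AbsHt

/-- simultaneous approximation -/
theorem sim (r q₀ : ℕ) (hq : 0 < q₀) (μ : Fin r → ℝ) : ∃ (q : ℕ) (a : Fin r → ℤ), 1 ≤ q ∧ q ≤ q₀ ^ r ∧
    ∀ i, |q * μ i - a i| ≤ 1 / q₀ := by
  classical
  have hqr : (0 : ℝ) < q₀ := by exact_mod_cast hq
  let F : Fin (q₀ ^ r + 1) → (Fin r → Fin q₀) := fun j i =>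
    ⟨⌊(q₀ : ℝ) * Int.fract ((j : ℝ) * μ i)⌋.toNat, by
      have h1 : Int.fract ((j : ℝ) * μ i) < 1 := Int.fract_lt_one _
      have h0 : 0 ≤ Int.fract ((j : ℝ) * μ i) := Int.fract_nonneg _
      have h2 : ⌊(q₀ : ℝ) * Int.fract ((j : ℝ) * μ i)⌋ < q₀ := by
        rw [Int.floor_lt]
        push_cast
        nlinarith
      have h3 : 0 ≤ ⌊(q₀ : ℝ) * Int.fract ((j : ℝ) * μ i)⌋ := Int.floor_nonneg.2 (by positivity)
      omega⟩
  obtain ⟨j, k, hjk, hF⟩ := Fintype.exists_ne_map_eq_of_card_lt F (by simp)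
  wlog hlt : j < k generalizing j k
  · exact this k j hjk.symm hF.symm (lt_of_le_of_ne (not_lt.1 hlt) hjk.symm)
  have hlt' : (j : ℕ) < k := hlt
  refine ⟨k - j, fun i => ⌊(k : ℝ) * μ i⌋ - ⌊(j : ℝ) * μ i⌋, by omega, ?_, fun i => ?_⟩
  · have := k.2
    omega
  · have h1 := congrArg Fin.val (congrFun hF i)
    have h1' : ⌊(q₀ : ℝ) * Int.fract ((j : ℝ) * μ i)⌋.toNat = ⌊(q₀ : ℝ) * Int.fract ((k : ℝ) * μ i)⌋.toNat := h1
    have hj0 : 0 ≤ ⌊(q₀ : ℝ) * Int.fract ((j : ℝ) * μ i)⌋ :=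
      Int.floor_nonneg.2 (mul_nonneg hqr.le (Int.fract_nonneg _))
    have hk0 : 0 ≤ ⌊(q₀ : ℝ) * Int.fract ((k : ℝ) * μ i)⌋ :=
      Int.floor_nonneg.2 (mul_nonneg hqr.le (Int.fract_nonneg _))
    have h2 : ⌊(q₀ : ℝ) * Int.fract ((j : ℝ) * μ i)⌋ = ⌊(q₀ : ℝ) * Int.fract ((k : ℝ) * μ i)⌋ := by omega
    have h3 := Int.abs_sub_lt_one_of_floor_eq_floor h2
    have h4 : ((k - j : ℕ) : ℝ) * μ i - ((⌊(k : ℝ) * μ i⌋ - ⌊(j : ℝ) * μ i⌋ : ℤ) : ℝ) =
        Int.fract ((k : ℝ) * μ i) - Int.fract ((j : ℝ) * μ i) := by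
      rw [Nat.cast_sub hlt'.le]
      push_cast
      rw [Int.fract, Int.fract]
      ring
    rw [h4, le_div_iff₀ hqr, ← abs_of_pos hqr, ← abs_mul]
    have h5 : (Int.fract ((k : ℝ) * μ i) - Int.fract ((j : ℝ) * μ i)) * (q₀ : ℝ) =
        -((q₀ : ℝ) * Int.fract ((j : ℝ) * μ i) - q₀ * Int.fract ((k : ℝ) * μ i)) := by ring
    rw [h5, abs_neg]
    exact h3.le

/-- points with a multiplicative relation have bounded height -/
theorem bmz (r : ℕ) (C N n : ℝ) (hC : 0 ≤ C) (hN : 0 ≤ N) (hn : 0 ≤ n) : ∃ Q : ℕ, ∀ Ca : ℝ, ∃ B : ℝ,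
    ∀ (ξ : Qbar) (φ : Fin r → Qbar), (∀ i, φ i ≠ 0) → (∀ i, Hh (φ i) ≤ C + N * Hh ξ) →
      (∀ a : Fin r → ℤ, a ≠ 0 → (∀ i, |a i| ≤ Q) → Hh ξ ≤ Ca + n * Hh (∏ i, φ i ^ a i)) →
      ∀ (m : Fin r → ℤ) (k : ℕ), m ≠ 0 → 0 < k → (∏ i, φ i ^ m i) ^ k = 1 → Hh ξ ≤ B := by
  classical
  obtain ⟨q₀, hq₀⟩ := exists_nat_ge (2 * n * r * N + 2)
  have hnrN : 0 ≤ n * r * N := by positivity
  have hq2 : (2 : ℝ) ≤ q₀ := by nlinarith
  have hqpos : (0 : ℝ) < q₀ := by linarith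
  have hq₀' : 0 < q₀ := by exact_mod_cast hqpos
  refine ⟨q₀ ^ r + 1, fun Ca => ⟨2 * (Ca + n * r * C), fun ξ φ hφ h1 h2 m k hm hk htors => ?_⟩⟩
  -- the maximum of the exponents
  obtain ⟨i₀, hi₀⟩ : ∃ i₀, ∀ i, |m i| ≤ |m i₀| := by
    obtain ⟨i, hi⟩ := Function.ne_iff.1 hm
    have : Nonempty (Fin r) := ⟨i⟩
    exact Finite.exists_max fun i => |m i|
  have hM : 0 < |m i₀| := by
    obtain ⟨i, hi⟩ := Function.ne_iff.1 hm
    exact lt_of_lt_of_le (abs_pos.2 hi) (hi₀ i)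
  set M : ℤ := |m i₀| with hMdef
  have hMr : (0 : ℝ) < M := by exact_mod_cast hM
  obtain ⟨q, a, hq1, hqQ, ha⟩ := sim r q₀ hq₀' fun i => (m i : ℝ) / M
  have hq1r : (1 : ℝ) ≤ q := by exact_mod_cast hq1
  have hdelta : (1 : ℝ) / q₀ ≤ 1 / 2 := by
    rw [div_le_div_iff₀ hqpos two_pos]
    linarith
  have habs : ∀ i, |(m i : ℝ) / M| ≤ 1 := by
    intro i
    rw [abs_div, abs_of_pos hMr, div_le_one hMr]
    exact_mod_cast hi₀ i
  have ha0 : a ≠ 0 := by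
    intro h0
    have h3 := ha i₀
    rw [h0] at h3
    simp only [Pi.zero_apply, Int.cast_zero, sub_zero] at h3
    rw [abs_mul, abs_div, abs_of_pos hMr] at h3
    have h4 : |(m i₀ : ℝ)| = M := by rw [hMdef]; push_cast; rfl
    rw [h4, div_self hMr.ne', mul_one, abs_of_nonneg (by positivity)] at h3
    linarith
  have haQ : ∀ i, |a i| ≤ ((q₀ ^ r + 1 : ℕ) : ℤ) := by
    intro i
    have h3 := ha i
    have h4 : |(a i : ℝ)| ≤ |(q : ℝ) * ((m i : ℝ) / M)| + 1 / q₀ := by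
      have := abs_sub_abs_le_abs_sub (a i : ℝ) ((q : ℝ) * ((m i : ℝ) / M))
      rw [abs_sub_comm] at this
      linarith
    have h5 : |(q : ℝ) * ((m i : ℝ) / M)| ≤ q := by
      rw [abs_mul, abs_of_nonneg (by positivity : (0 : ℝ) ≤ q)]
      nlinarith [habs i]
    have h6 : (q : ℝ) ≤ (q₀ ^ r : ℕ) := by exact_mod_cast hqQ
    have h7 : |(a i : ℝ)| ≤ ((q₀ ^ r + 1 : ℕ) : ℝ) := by
      push_cast at h6 ⊢
      linarith
    exact_mod_cast h7
  have h3 := h2 a ha0 haQ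
  -- the height of the product
  set F : Qbar := ∏ i, φ i ^ a i with hF
  have hpow : F ^ (M * k) = ∏ i, φ i ^ ((M * a i - q * m i) * k) := by
    have e1 : (∏ i, φ i ^ ((q : ℤ) * m i * k)) = 1 := by
      have e2 : (∏ i, φ i ^ ((q : ℤ) * m i * k)) = ((∏ i, φ i ^ m i) ^ k) ^ q := by
        rw [← pow_mul, ← Finset.prod_pow]
        refine Finset.prod_congr rfl fun i _ => ?_
        rw [← zpow_natCast (φ i ^ m i), ← zpow_mul]
        congr 1
        push_cast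
        ring
      rw [e2, htors, one_pow]
    rw [hF, ← Finset.prod_zpow]
    have e3 : ∀ i, (φ i ^ a i) ^ (M * k) = φ i ^ ((M * a i - q * m i) * k) * φ i ^ ((q : ℤ) * m i * k) := by
      intro i
      rw [← zpow_mul, ← zpow_add₀ (hφ i)]
      congr 1
      ring
    rw [Finset.prod_congr rfl fun i _ => e3 i, Finset.prod_mul_distrib, e1, mul_one]
  have h4 := Hh_prod φ fun i => (M * a i - q * m i) * k
  rw [← hpow, Hh_zpow] at h4
  have hkr : (0 : ℝ) < k := by exact_mod_cast hk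
  have h5 : ∀ i, (|(M * a i - q * m i) * k| : ℤ) * Hh (φ i) ≤ (M * k / q₀) * (C + N * Hh ξ) := by
    intro i
    have h6 : ((|(M * a i - q * m i) * k| : ℤ) : ℝ) ≤ M * k / q₀ := by
      push_cast
      rw [abs_mul, abs_of_pos hkr]
      have h7 : |(M : ℝ) * a i - q * m i| = M * |q * ((m i : ℝ) / M) - a i| := by
        rw [← abs_of_pos hMr, ← abs_mul, abs_of_pos hMr, abs_sub_comm]
        congr 1
        field_simp
      rw [h7]
      have h8 := ha i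
      have h9 : (M : ℝ) * |q * ((m i : ℝ) / M) - a i| ≤ M * (1 / q₀) := mul_le_mul_of_nonneg_left h8 hMr.le
      calc (M : ℝ) * |q * ((m i : ℝ) / M) - a i| * k ≤ M * (1 / q₀) * k :=
            mul_le_mul_of_nonneg_right h9 hkr.le
        _ = M * k / q₀ := by ring
    exact mul_le_mul h6 (h1 i) (Hh_nonneg _) (by positivity)
  have h6 := h4.trans (Finset.sum_le_sum fun i _ => h5 i)
  rw [Finset.sum_const, Finset.card_univ, Fintype.card_fin, nsmul_eq_mul] at h6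
  have h7 : ((|M * k| : ℤ) : ℝ) = M * k := by
    push_cast
    rw [abs_of_pos (by positivity)]
  rw [h7] at h6
  have h8 : Hh F ≤ r / q₀ * (C + N * Hh ξ) := by
    have h9 : (M : ℝ) * k * Hh F ≤ (M * k) * (r / q₀ * (C + N * Hh ξ)) := by
      refine h6.trans (le_of_eq ?_)
      ring
    exact le_of_mul_le_mul_left h9 (by positivity)
  have h9 : n * Hh F ≤ n * (r / q₀ * (C + N * Hh ξ)) := mul_le_mul_of_nonneg_left h8 hn
  have h10 : n * (r / q₀ * (C + N * Hh ξ)) = (n * r * C) / q₀ + (n * r * N / q₀) * Hh ξ := by ring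
  have h11 : n * r * N / q₀ ≤ 1 / 2 := by
    rw [div_le_div_iff₀ hqpos two_pos]
    linarith
  have h12 : (n * r * C) / q₀ ≤ n * r * C := div_le_self (by positivity) (by linarith)
  have h13 := mul_le_mul_of_nonneg_right h11 (Hh_nonneg ξ)
  linarith

end Pool.Agent.Helper79.HT
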