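import Pool.Agent.Helper79.HT.Tfin
import Pool.Agent.Helper79.HT.Fdim

set_option autoImplicit false

/-!
# Symbols with entries in a finitely generated group and functions with supports of bounded degree
-/

namespace Pool.Agent.Helper79.HT

open scoped WithZero
open Polynomial IntermediateField Module
open Pool.Agent.TH826.MK (KQ symb unitPart)
open Pool.Agent.Helper537_Sym
open Pool.Agent.Helper79.FE (VN supp_finite)

variable {K L : Type*} [Field K] [Field L] [Algebra K L]

/-- the functions all of whose zeros and poles are of degree at most `D` -/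
def Bs (K L : Type*) [Field K] [Field L] [Algebra K L] (D : ℕ) : Subgroup Lˣ where
  carrier := {u | ∀ v ∈ VN K L, v (u : L) ≠ 1 → DegLE K D v}
  one_mem' := fun v _ h => absurd (by rw [Units.val_one, map_one]) h
  mul_mem' := fun {a b} ha hb v hv h => by
    by_cases h1 : v (a : L) = 1
    · by_cases h2 : v (b : L) = 1
      · exact absurd (by rw [Units.val_mul, map_mul, h1, h2, one_mul]) h
      · exact hb v hv h2
    · exact ha v hv h1
  inv_mem' := fun {a} ha v hv h => by
    refine ha v hv fun h1 => h ?_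
    rw [Units.val_inv_eq_inv_val, map_inv₀, h1, inv_one]

theorem fin_bounded [NumberField K] (x : L) (hx : Transcendental K x) [FiniteDimensional K⟮x⟯ L] {r : ℕ}
    (f : Fin r → Lˣ) (hf : ∀ m : Fin r → ℤ, IsAlgebraic K ((∏ i, f i ^ m i : Lˣ) : L) → m = 0) (D : ℕ) :
    FiniteDimensional ℚ ↥(Submodule.span ℚ {z : KQ L 2 | ∃ (i : Fin r) (u : Lˣ), u ∈ Bs K L D ∧ z = sy (f i) u} ⊓
      ⨅ v ∈ VN K L, unitPart v 2) := by
  classical
  refine fin_multi x hx f hf (Bs K L D)
    ({v : Valuation L ℤᵐ⁰ | v ∈ VN K L ∧ DegLE K D v ∧ (∀ i, v (f i : L) = 1) ∧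
      ∃ (m : Fin r → ℤ) (k : ℕ), m ≠ 0 ∧ 0 < k ∧ v (((∏ i, f i ^ m i : Lˣ) : L) ^ k - 1) < 1} ∪
      ⋃ i, {v ∈ VN K L | v (f i : L) ≠ 1})
    ((T_finite x hx f hf D).union (Set.finite_iUnion fun i => supp_finite x hx _ (f i).ne_zero)) ?_
  intro w hw hsum v hv hvT i
  rw [Set.mem_union, not_or] at hvT
  obtain ⟨h1, h2⟩ := hvT
  have hf1 : ∀ i, v (f i : L) = 1 := by
    intro i
    by_contra hne
    exact h2 (Set.mem_iUnion.2 ⟨i, hv, hne⟩)
  have hmem : sig f w ∈ unitPart v 2 := by
    have := (Submodule.mem_iInf _).1 hsum v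
    exact (Submodule.mem_iInf _).1 this hv
  by_contra hne
  apply h1
  obtain ⟨k, hk, h3⟩ := rel_of_unram v f w hf1 hmem
  refine ⟨hv, hw i v hv hne, hf1, fun i => ord v (w i), k, fun h0 => hne ?_, hk, h3⟩
  exact ord_eq_zero (congrFun h0 i)

end Pool.Agent.Helper79.HT
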