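import Pool.Graph.R_seed8.H58W.HtNorth
import Pool.Graph.R_seed8.H58W.HtMap

set_option autoImplicit false

/-!
# Heights of algebraic numbers and polynomial relations
-/

namespace Pool.Agent.Helper79.HT

open NumberField Height Module Polynomial
open Pool.Agent.Helper259.AbsHt
open Pool.Agent.Helper259.HtPoly (cv)

/-- the absolute logarithmic height of an algebraic number -/
noncomputable def Hh (a : Qbar) : ℝ := absLogHeight ![1, a]

theorem Hh_nonneg (a : Qbar) : 0 ≤ Hh a := absLogHeight_nonneg _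

theorem Hh_eq (L : IntermediateField ℚ Qbar) [NumberField L] (y : L) :
    Hh (y : Qbar) = logHeight₁ y / finrank ℚ L := by
  have h := val_eq L ![1, y]
  have e : (fun i => ((![1, y] i : L) : Qbar)) = ![1, (y : Qbar)] := by
    funext j
    fin_cases j <;> simp
  rw [e] at h
  rw [Hh, h, logHeight₁_eq_logHeight, logHeight_swap]

theorem Hh_prod {r : ℕ} (a : Fin r → Qbar) (k : Fin r → ℤ) :
    Hh (∏ i, a i ^ k i) ≤ ∑ i, (|k i| : ℤ) * Hh (a i) := by
  obtain ⟨L, hL, hmem⟩ := exists_nf (Set.range a) (Set.finite_range a)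
  obtain ⟨y, rfl⟩ := lift_vec L a fun i => hmem _ ⟨i, rfl⟩
  have e : (∏ i, (y i : Qbar) ^ k i) = ((∏ i, y i ^ k i : L) : Qbar) := by push_cast; rfl
  rw [e, Hh_eq]
  have h1 := logHeight₁_prod_le (Finset.univ) (fun i => y i ^ k i)
  have hpos := finrank_pos' L
  rw [div_le_iff₀ hpos, Finset.sum_mul]
  refine h1.trans (le_of_eq (Finset.sum_congr rfl fun i _ => ?_))
  rw [logHeight₁_zpow, Hh_eq]
  have h2 : ((k i).natAbs : ℝ) = ((|k i| : ℤ) : ℝ) := by
    rw [Int.abs_eq_natAbs]; rfl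
  rw [h2]
  field_simp

theorem Hh_zpow (a : Qbar) (k : ℤ) : Hh (a ^ k) = (|k| : ℤ) * Hh a := by
  obtain ⟨L, hL, hmem⟩ := exists_nf {a} (Set.finite_singleton a)
  have ha : a ∈ L := hmem a rfl
  have e : a ^ k = (((⟨a, ha⟩ : L) ^ k : L) : Qbar) := rfl
  have e2 : a = ((⟨a, ha⟩ : L) : Qbar) := rfl
  rw [e, Hh_eq, logHeight₁_zpow]
  conv_rhs => rw [e2, Hh_eq]
  have h2 : ((k).natAbs : ℝ) = ((|k| : ℤ) : ℝ) := by
    rw [Int.abs_eq_natAbs]; rfl
  rw [h2]
  ring

theorem swap_ht (x y : Qbar) : absLogHeight ![x, y] ≤ absLogHeight ![y, x] := by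
  have := absLogHeight_comp_le ![(1 : Fin 2), 0] ![y, x]
  have e : (![y, x] ∘ ![(1 : Fin 2), 0]) = ![x, y] := by
    funext i; fin_cases i <;> simp
  rwa [e] at this

/-- the specialization of a polynomial in two variables -/
noncomputable def spec {K : Type*} [Field K] (σ : K →+* Qbar) (R : K[X][X]) (b : Qbar) : Qbar[X] :=
  R.map (eval₂RingHom σ b)

/-- height inequality from a polynomial relation -/
theorem ht_rel {K : Type*} [Field K] (σ : K →+* Qbar) (R : K[X][X]) (N : ℕ) (hN : ∀ j, (R.coeff j).natDegree ≤ N) :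
    ∃ C : ℝ, 0 ≤ C ∧ ∀ b c : Qbar, spec σ R b ≠ 0 → (spec σ R b).eval c = 0 → Hh c ≤ C + N * Hh b := by
  obtain ⟨C₁, h1⟩ := absLogHeight_root R.natDegree
  obtain ⟨C₂, h2⟩ := absLogHeight_eval N
    (fun j : Fin (R.natDegree + 1) => ((R.coeff j).map σ).homogenize N)
    (fun j => Polynomial.isHomogeneous_homogenize _)
  refine ⟨|C₁ + C₂|, abs_nonneg _, fun b c hb hc => ?_⟩
  have h3 := h1 (spec σ R b) c hb (natDegree_map_le) hc
  have h4 := h2 ![b, 1]
  have e : (fun j : Fin (R.natDegree + 1) => MvPolynomial.eval ![b, 1] (((R.coeff j).map σ).homogenize N)) =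
      cv R.natDegree (spec σ R b) := by
    funext j
    rw [Pool.Agent.H58W.eval_homog]
    unfold Pool.Agent.H58W.hev
    show _ = (spec σ R b).coeff j
    rw [spec, coeff_map, coe_eval₂RingHom, eval₂_eq_sum_range' σ (Nat.lt_succ_of_le (hN j))]
    refine Finset.sum_congr rfl fun i _ => ?_
    simp
  rw [e] at h4
  have h5 : absLogHeight ![b, 1] ≤ Hh b := swap_ht b 1
  have h6 : (N : ℝ) * absLogHeight ![b, 1] ≤ N * Hh b := mul_le_mul_of_nonneg_left h5 (Nat.cast_nonneg N)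
  have h7 : C₁ + C₂ ≤ |C₁ + C₂| := le_abs_self _
  unfold Hh at *
  linarith

end Pool.Agent.Helper79.HT
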