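import Pool.Agent.Helper79.HT.Bmz
import Pool.Agent.Helper79.FE.FinN

set_option autoImplicit false

/-!
# Places of function fields over number fields, heights of the values
-/

namespace Pool.Agent.Helper79.HT

open scoped WithZero IntermediateField.algebraAdjoinAdjoin
open Polynomial IntermediateField Module
open Pool.Agent.Helper259.AbsHt
open Pool.Agent.Helper79.FE (VN exists_zero finite_zeros fin_adj val_alg)

variable {K L : Type*} [Field K] [Field L] [Algebra K L]

/-- the residue field of `v` has degree at most `D` over `K` -/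
def DegLE (K : Type*) {L : Type*} [Field K] [Field L] [Algebra K L] (D : ℕ) (v : Valuation L ℤᵐ⁰) : Prop :=
  ∀ a : L, v a ≤ 1 → ∃ Q : K[X], Q.Monic ∧ Q.natDegree ≤ D ∧ v (aeval a Q) < 1

theorem cst_le {v : Valuation L ℤᵐ⁰} (hv : v ∈ VN K L) (c : K) : v (algebraMap K L c) ≤ 1 := by
  by_cases h0 : c = 0
  · rw [h0, map_zero, map_zero]; exact zero_le_one
  · rw [hv.2 c h0]

/-- the constants in the valuation ring -/
noncomputable def iK {v : Valuation L ℤᵐ⁰} (hv : v ∈ VN K L) : K →+* v.valuationSubring :=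
  (algebraMap K L).codRestrict v.valuationSubring.toSubring fun c => cst_le hv c

theorem iK_val {v : Valuation L ℤᵐ⁰} (hv : v ∈ VN K L) (c : K) : ((iK hv c : v.valuationSubring) : L) = algebraMap K L c :=
  rfl

/-- a place with algebraic values -/
structure Plc (σ : K →+* Qbar) {v : Valuation L ℤᵐ⁰} (hv : v ∈ VN K L) where
  /-- the place -/
  ρ : v.valuationSubring →+* Qbar
  ker : ∀ y : v.valuationSubring, ρ y = 0 ↔ v (y : L) < 1
  cst : ∀ c : K, ρ (iK hv c) = σ c

theorem exists_plc (σ : K →+* Qbar) {v : Valuation L ℤᵐ⁰} (hv : v ∈ VN K L) {D : ℕ} (hD : DegLE K D v) :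
    Nonempty (Plc σ hv) := by
  classical
  let κ := IsLocalRing.ResidueField v.valuationSubring
  let res : v.valuationSubring →+* κ := IsLocalRing.residue _
  let _ : Algebra K κ := (res.comp (iK hv)).toAlgebra
  let _ : Algebra K Qbar := σ.toAlgebra
  have hker : ∀ y : v.valuationSubring, res y = 0 ↔ v (y : L) < 1 := by
    intro y
    rw [IsLocalRing.residue_eq_zero_iff, IsLocalRing.mem_maximalIdeal, mem_nonunits_iff]
    have hy : v (y : L) ≤ 1 := y.2
    constructor
    · intro h
      refine lt_of_le_of_ne hy fun h1 => h ?_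
      have hy0 : (y : L) ≠ 0 := by
        intro h0
        rw [h0, map_zero] at h1
        exact zero_ne_one h1
      have hinv : v ((y : L)⁻¹) ≤ 1 := by rw [map_inv₀, h1, inv_one]
      exact IsUnit.of_mul_eq_one (⟨(y : L)⁻¹, hinv⟩ : v.valuationSubring) (Subtype.ext (mul_inv_cancel₀ hy0))
    · intro h hu
      obtain ⟨u, hu⟩ := hu
      have h1 : v (u : L) * v ((u⁻¹ : v.valuationSubringˣ) : L) = 1 := by
        rw [← map_mul]
        have h2 : ((u : v.valuationSubring) : L) * ((u⁻¹ : v.valuationSubringˣ) : v.valuationSubring) = 1 := by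
          have h3 := congrArg (fun z : v.valuationSubring => (z : L)) (u.mul_inv)
          exact h3
        rw [h2, map_one]
      have h2 : v ((u⁻¹ : v.valuationSubringˣ) : L) ≤ 1 := (u⁻¹ : v.valuationSubringˣ).1.2
      rw [hu] at h1
      have h3 : v (y : L) * v ((u⁻¹ : v.valuationSubringˣ) : L) ≤ v (y : L) * 1 := mul_le_mul_right h2 _
      rw [h1, mul_one] at h3
      exact absurd h (not_lt.2 h3)
  have hev : ∀ (a : v.valuationSubring) (P : K[X]),
      ((eval₂ (iK hv) a P : v.valuationSubring) : L) = aeval (a : L) P := by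
    intro a P
    have h := hom_eval₂ P (iK hv) v.valuationSubring.subtype a
    exact h
  have halg : Algebra.IsAlgebraic K κ := by
    constructor
    intro y
    obtain ⟨a, rfl⟩ := IsLocalRing.residue_surjective y
    obtain ⟨Q, hQ, -, h⟩ := hD a a.2
    refine ⟨Q, hQ.ne_zero, ?_⟩
    have h1 : aeval (res a) Q = res (eval₂ (iK hv) a Q) := by
      rw [hom_eval₂]
      rfl
    show aeval (res a) Q = 0
    rw [h1, hker, hev]
    exact h
  let φ : κ →ₐ[K] Qbar := IsAlgClosed.lift
  refine ⟨⟨(φ : κ →+* Qbar).comp res, fun y => ?_, fun c => ?_⟩⟩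
  · rw [← hker]
    exact map_eq_zero_iff _ (φ : κ →+* Qbar).injective
  · exact φ.commutes c

section

variable {σ : K →+* Qbar} {v : Valuation L ℤᵐ⁰} {hv : v ∈ VN K L} (p : Plc σ hv)

theorem plc_aeval (a : v.valuationSubring) (P : K[X]) (h : aeval (a : L) P ∈ v.valuationSubring) :
    p.ρ ⟨aeval (a : L) P, h⟩ = eval₂ σ (p.ρ a) P := by
  have h1 : (⟨aeval (a : L) P, h⟩ : v.valuationSubring) = eval₂ (iK hv) a P := by
    apply Subtype.ext
    have h := hom_eval₂ P (iK hv) v.valuationSubring.subtype a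
    exact h.symm
  rw [h1, hom_eval₂]
  congr 1
  ext c
  exact p.cst c

theorem aeval_mem (hv : v ∈ VN K L) (a : v.valuationSubring) (P : K[X]) : aeval (a : L) P ∈ v.valuationSubring := by
  have h := hom_eval₂ P (iK hv) v.valuationSubring.subtype a
  have h2 : aeval (a : L) P = ((eval₂ (iK hv) a P : v.valuationSubring) : L) := h.symm
  rw [h2]
  exact (eval₂ (iK hv) a P).2

theorem plc_rel (a b : v.valuationSubring) (R : K[X][X])
    (hR : eval₂ ((aeval (b : L) : K[X] →ₐ[K] L) : K[X] →+* L) (a : L) R = 0) :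
    (spec σ R (p.ρ b)).eval (p.ρ a) = 0 := by
  have h1 : ((eval₂ (eval₂RingHom (iK hv) b) a R : v.valuationSubring) : L) = 0 := by
    have h := hom_eval₂ R (eval₂RingHom (iK hv) b) v.valuationSubring.subtype a
    refine h.trans (Eq.trans ?_ hR)
    congr 1
    apply Polynomial.ringHom_ext
    · intro c
      simp
      rfl
    · simp
  have h2 : eval₂ (eval₂RingHom (iK hv) b) a R = 0 := Subtype.ext h1
  have h3 := hom_eval₂ R (eval₂RingHom (iK hv) b) p.ρ a
  rw [h2, map_zero] at h3
  rw [spec, eval_map]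
  refine Eq.trans ?_ h3.symm
  congr 1
  apply Polynomial.ringHom_ext
  · intro c
    simp [p.cst]
  · simp

end

/-- finitely many zeros -/
theorem zeros_fin [CharZero K] (x : L) (hx : Transcendental K x) [FiniteDimensional K⟮x⟯ L] (w : L) (hw : w ≠ 0) :
    {v ∈ VN K L | v w < 1}.Finite := by
  by_cases h : Transcendental K w
  · have : FiniteDimensional K⟮w⟯ L := fin_adj x w hx h
    exact finite_zeros w h
  · have halg : IsAlgebraic K w := by
      by_contra h2; exact h h2
    refine Set.Finite.subset Set.finite_empty ?_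
    rintro v ⟨hv, h1⟩
    rw [val_alg hv hw halg] at h1
    exact absurd h1 (lt_irrefl _)

/-- a polynomial relation -/
theorem exists_rel (x : L) [FiniteDimensional K⟮x⟯ L] (F : L) : ∃ R : K[X][X], R ≠ 0 ∧
    R.natDegree ≤ finrank K⟮x⟯ L ∧ eval₂ ((aeval x : K[X] →ₐ[K] L) : K[X] →+* L) F R = 0 := by
  classical
  set n := finrank K⟮x⟯ L with hn
  have hdep : ¬ LinearIndependent K⟮x⟯ (fun j : Fin (n + 1) => F ^ (j : ℕ)) := by
    intro h
    have := h.fintype_card_le_finrank
    rw [Fintype.card_fin] at this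
    omega
  have hdep2 : ¬ LinearIndependent (Algebra.adjoin K {x}) (fun j : Fin (n + 1) => F ^ (j : ℕ)) := by
    intro h
    apply hdep
    have : IsFractionRing (Algebra.adjoin K {x}) K⟮x⟯ := inferInstance
    exact (LinearIndependent.iff_fractionRing (Algebra.adjoin K {x}) K⟮x⟯).1 h
  rw [Fintype.not_linearIndependent_iff] at hdep2
  obtain ⟨g, hg, j₀, hj₀⟩ := hdep2
  have hP : ∀ j, ∃ P : K[X], aeval x P = (g j : L) := by
    intro j
    have h1 : (g j : L) ∈ (aeval x : K[X] →ₐ[K] L).range := by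
      rw [← Algebra.adjoin_singleton_eq_range_aeval]
      exact (g j).2
    exact h1
  choose P hP using hP
  refine ⟨∑ j : Fin (n + 1), monomial (j : ℕ) (P j), ?_, ?_, ?_⟩
  · intro h0
    have h1 := congrArg (fun R : K[X][X] => R.coeff (j₀ : ℕ)) h0
    simp only [finsetSum_coeff, coeff_monomial, coeff_zero] at h1
    rw [Finset.sum_eq_single j₀] at h1
    · rw [if_pos rfl] at h1
      apply hj₀
      apply Subtype.ext
      rw [← hP, h1, map_zero]
      rfl
    · intro j _ hj
      exact if_neg fun h => hj (Fin.ext h)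
    · intro h; exact absurd (Finset.mem_univ _) h
  · refine natDegree_sum_le_of_forall_le _ _ fun j _ => ?_
    exact (natDegree_monomial_le _).trans (Nat.lt_succ_iff.1 j.2)
  · rw [eval₂_finsetSum, ← hg]
    refine Finset.sum_congr rfl fun j _ => ?_
    rw [eval₂_monomial, Algebra.smul_def]
    congr 1
    exact hP j

/-- height inequalities at places -/
theorem rel_ht [CharZero K] (σ : K →+* Qbar) (x : L) (hx : Transcendental K x) [FiniteDimensional K⟮x⟯ L]
    (a b : L) (hb : Transcendental K b) (R : K[X][X]) (hR0 : R ≠ 0)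
    (hR : eval₂ ((aeval b : K[X] →ₐ[K] L) : K[X] →+* L) a R = 0) (N : ℕ) (hN : ∀ j, (R.coeff j).natDegree ≤ N) :
    ∃ (C : ℝ) (Z : Set (Valuation L ℤᵐ⁰)), 0 ≤ C ∧ Z.Finite ∧ ∀ (v : Valuation L ℤᵐ⁰) (hv : v ∈ VN K L), v ∉ Z →
      ∀ (p : Plc σ hv) (ha1 : a ∈ v.valuationSubring) (hb1 : b ∈ v.valuationSubring),
        Hh (p.ρ ⟨a, ha1⟩) ≤ C + N * Hh (p.ρ ⟨b, hb1⟩) := by
  classical
  obtain ⟨C, hC, h⟩ := ht_rel σ R N hN
  obtain ⟨j, hj⟩ : ∃ j, R.coeff j ≠ 0 := by
    by_contra hcon
    push Not at hcon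
    exact hR0 (Polynomial.ext fun j => by rw [hcon j, coeff_zero])
  have hw : aeval b (R.coeff j) ≠ 0 := by
    intro h0
    exact hb ⟨_, hj, h0⟩
  refine ⟨C, {v ∈ VN K L | v (aeval b (R.coeff j)) < 1}, hC, zeros_fin x hx _ hw, fun v hv hvZ p ha1 hb1 => ?_⟩
  refine h _ _ ?_ (plc_rel p ⟨a, ha1⟩ ⟨b, hb1⟩ R hR)
  intro h0
  apply hvZ
  refine ⟨hv, ?_⟩
  have hmem := aeval_mem hv ⟨b, hb1⟩ (R.coeff j)
  have h1 := plc_aeval p ⟨b, hb1⟩ (R.coeff j) hmem
  have h2 : (spec σ R (p.ρ ⟨b, hb1⟩)).coeff j = 0 := by rw [h0, coeff_zero]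
  rw [spec, coeff_map, coe_eval₂RingHom, ← h1, p.ker] at h2
  exact h2

end Pool.Agent.Helper79.HT
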