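import Pool.Agent.Helper79.HT.Alg
import Pool.Agent.Helper79.QP.Rel

set_option autoImplicit false

/-!
# The relative theorem for several fixed entries over the field of the algebraic numbers
-/

namespace Pool.Agent.Helper79.HT

open scoped WithZero
open Polynomial IntermediateField Module
open Pool.Agent.TH826.MK (KQ symb KQ.map KQ.map_symb unitPart)
open Pool.Agent.Helper537_Sym
open Pool.Agent.Helper79.FE (VN exists_norm unram_map)
open Pool.Agent.Helper79.BT (kmap_comp inj_alg)
open Pool.Agent.Helper79.QP (up up_mul up_val gg norm_mem fin_up alg_const)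

universe u

theorem norm_lt {L : Type*} [Field L] {v w : Valuation L ℤᵐ⁰} (h : ∀ a, w a = 1 ↔ v a = 1) {a : L}
    (ha : w a < 1) : v a < 1 := by
  by_contra hc
  have h1 : v a ≠ 1 := fun h0 => ha.ne ((h a).2 h0)
  have h2 : 1 < v a := lt_of_le_of_ne (not_lt.1 hc) h1.symm
  have h3 : w (1 + a) = 1 := Valuation.map_one_add_of_lt w ha
  have h4 : v (1 + a) = v a := Valuation.map_add_eq_of_lt_right v (x := 1) (y := a) (by rw [map_one]; exact h2)
  rw [h, h4] at h3
  exact h1 h3

theorem norm_gt {L : Type*} [Field L] {v w : Valuation L ℤᵐ⁰} (h : ∀ a, w a = 1 ↔ v a = 1) {a : L}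
    (ha : 1 < w a) : 1 < v a := by
  have ha0 : w a ≠ 0 := fun h0 => by rw [h0] at ha; exact absurd ha (not_lt.2 zero_le_one)
  have h1 : w a⁻¹ < 1 := by
    rw [map_inv₀]
    exact inv_lt_one_of_one_lt₀ ha
  have h2 := norm_lt h h1
  rw [map_inv₀] at h2
  have hva : v a ≠ 0 := by
    rw [Valuation.ne_zero_iff]
    exact (Valuation.ne_zero_iff w).1 ha0
  by_contra hc
  exact absurd h2 (not_lt.2 ((one_le_inv₀ (zero_lt_iff.2 hva)).2 (not_lt.1 hc)))

variable {k F : Type*} {L M : Type u} [Field k] [Field F]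
  [Field L] [Field M] [Algebra k F] [Algebra k L] [Algebra F L]
  [Algebra k M] [Algebra F M] [Algebra L M] [IsScalarTower k F L] [IsScalarTower k L M] [IsScalarTower F L M]
  [IsScalarTower k F M]

theorem bs_up [CharZero k] (x : L) (D : ℕ) (u : Lˣ) (hu : u ∈ BsX k x D) :
    up L M u ∈ BsX k (algebraMap L M x) D := by
  intro v hv hne
  obtain ⟨w, hw1, hw2⟩ := exists_norm (v.comap (algebraMap L M)) ⟨u, u.ne_zero, hne⟩
  have hwN : w ∈ VN k L := by
    refine ⟨hw1, fun c hc => ?_⟩
    rw [hw2, Valuation.comap_apply, ← IsScalarTower.algebraMap_apply]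
    exact hv.2 c hc
  rcases hu w hwN (fun h0 => hne ((hw2 _).1 h0)) with h | ⟨Q, hQ, hQD, h⟩
  · exact Or.inl (norm_gt hw2 h)
  · refine Or.inr ⟨Q, hQ, hQD, ?_⟩
    have h1 := norm_lt hw2 h
    rw [Valuation.comap_apply] at h1
    rwa [← aeval_algebraMap_apply] at h1

omit [IsScalarTower k F L] in
theorem unram_sig [FiniteDimensional F M] [IsGalois F M] {r : ℕ} (f : Fin r → Lˣ) (q : ℚ) (hq : q ≠ 0)
    (u : Fin r → Fˣ) (β : KQ L 2) (hβ : β ∈ LinearMap.range (KQ.map 2 (algebraMap F L)))
    (hun : q • sig f (fun i => up F L (u i)) + β ∈ ⨅ v ∈ VN k L, unitPart v 2) (σ : M ≃ₐ[F] M) :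
    sig (fun i => gg (up L M (f i)) σ) (fun i => up F M (u i)) ∈ ⨅ v ∈ VN k M, unitPart v 2 := by
  have h1 : sig f (fun i => up F L (u i)) + q⁻¹ • β ∈ ⨅ v ∈ VN k L, unitPart v 2 := by
    have h2 := Submodule.smul_mem _ (q⁻¹) hun
    rwa [smul_add, smul_smul, inv_mul_cancel₀ hq, one_smul] at h2
  obtain ⟨γ, hγ⟩ : q⁻¹ • β ∈ LinearMap.range (KQ.map 2 (algebraMap F L)) := Submodule.smul_mem _ _ hβ
  rw [← hγ] at h1
  have hmap : ∀ (g : L →+* M), (∀ x : k, ∃ y : k, g (algebraMap k L x) = algebraMap k M y) →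
      (g.comp (algebraMap F L) = algebraMap F M) →
      sig (fun i => Units.map (g : L →* M) (f i)) (fun i => up F M (u i)) + KQ.map 2 (algebraMap F M) γ ∈
        ⨅ v ∈ VN k M, unitPart v 2 := by
    intro g hg hgF
    have h3 := unram_map g hg h1
    rw [map_add, ← kmap_comp, hgF] at h3
    have e : KQ.map 2 g (sig f (fun i => up F L (u i))) =
        sig (fun i => Units.map (g : L →* M) (f i)) (fun i => up F M (u i)) := by
      unfold sig
      rw [map_sum]
      refine Finset.sum_congr rfl fun j _ => ?_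
      show KQ.map 2 g (symb ![f j, up F L (u j)]) = _
      rw [KQ.map_symb]
      congr 1
      funext i
      fin_cases i
      · rfl
      · apply Units.ext
        show g (algebraMap F L (u j)) = algebraMap F M (u j)
        rw [← hgF]
        rfl
    rw [e] at h3
    exact h3
  have h4 := hmap (algebraMap L M) (fun x => ⟨x, (IsScalarTower.algebraMap_apply k L M x).symm⟩)
    (IsScalarTower.algebraMap_eq F L M).symm
  have h5 := hmap ((σ : M →+* M).comp (algebraMap L M)) (fun x => ⟨x, by
      show σ (algebraMap L M (algebraMap k L x)) = _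
      rw [← IsScalarTower.algebraMap_apply, IsScalarTower.algebraMap_apply k F M]
      exact σ.commutes _⟩)
    (RingHom.ext fun x => by
      show σ (algebraMap L M (algebraMap F L x)) = _
      rw [← IsScalarTower.algebraMap_apply]
      exact σ.commutes _)
  have h6 := Submodule.sub_mem _ h5 h4
  rw [add_sub_add_right_eq_sub] at h6
  have e : sig (fun i => gg (up L M (f i)) σ) (fun i => up F M (u i)) =
      sig (fun i => Units.map (((σ : M →+* M).comp (algebraMap L M) : L →+* M) : L →* M) (f i))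
        (fun i => up F M (u i)) -
      sig (fun i => Units.map ((algebraMap L M : L →+* M) : L →* M) (f i)) (fun i => up F M (u i)) := by
    unfold sig
    rw [← Finset.sum_sub_distrib]
    refine Finset.sum_congr rfl fun j _ => ?_
    show sy (gg (up L M (f j)) σ) (up F M (u j)) = _
    rw [gg, sy_mul_left, sy_inv_left, ← sub_eq_add_neg]
    rfl
  rw [e]
  exact h6

omit [IsScalarTower k F L] in
theorem rel_multi [CharZero k] [Algebra.IsAlgebraic ℚ k] [FiniteDimensional F M] [IsGalois F M]
    [Algebra.IsAlgebraic L M] (x : L)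
    (hX : Transcendental k (algebraMap L M x)) [FiniteDimensional k⟮algebraMap L M x⟯ M] {r : ℕ}
    (f : Fin r → Lˣ) (hσ : ∀ σ : M ≃ₐ[F] M, (∀ y : L, σ (algebraMap L M y) = algebraMap L M y) ∨
      ∀ m : Fin r → ℤ, IsAlgebraic k ((∏ i, gg (up L M (f i)) σ ^ m i : Mˣ) : M) → m = 0) (D : ℕ) :
    FiniteDimensional ℚ ↥(((Submodule.span ℚ {z : KQ L 2 | ∃ (i : Fin r) (u : Fˣ),
      up F L u ∈ BsX k x D ∧ z = sy (f i) (up F L u)} ⊔
      LinearMap.range (KQ.map 2 (algebraMap F L))) ⊓ ⨅ v ∈ VN k L, unitPart v 2).map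
        (LinearMap.range (KQ.map 2 (algebraMap F L))).mkQ) := by
  classical
  have : Fintype (M ≃ₐ[F] M) := Fintype.ofFinite _
  set R := LinearMap.range (KQ.map 2 (algebraMap F L)) with hR
  set RM := LinearMap.range (KQ.map 2 (algebraMap F M)) with hRM
  have hN : ∀ i, ∃ c : Fˣ, up F M c = ∏ σ : M ≃ₐ[F] M, Units.map (σ : M →* M) (up L M (f i)) := fun i =>
    norm_mem (F := F) (up L M (f i))
  choose N hN using hN
  have hcard : ((Fintype.card (M ≃ₐ[F] M) : ℕ) : ℚ) ≠ 0 := by exact_mod_cast Fintype.card_ne_zero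
  -- the average
  have havg : ∀ (i : Fin r) (u : Fˣ), ((Fintype.card (M ≃ₐ[F] M) : ℕ) : ℚ) • sy (up L M (f i)) (up F M u) =
      sy (up F M (N i)) (up F M u) - ∑ σ : M ≃ₐ[F] M, sy (gg (up L M (f i)) σ) (up F M u) := by
    intro i u
    have hprod : ∏ σ : M ≃ₐ[F] M, gg (up L M (f i)) σ =
        up F M (N i) * (up L M (f i) ^ (Fintype.card (M ≃ₐ[F] M)))⁻¹ := by
      rw [hN]
      simp only [gg, Finset.prod_mul_distrib, Finset.prod_const, Finset.card_univ, inv_pow]
    rw [← Pool.Agent.Helper79.QP.sy_prod_left, hprod, sy_mul_left, sy_inv_left, sy_pow_left]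
    abel
  have hNR : ∀ (i : Fin r) (u : Fˣ), sy (up F M (N i)) (up F M u) ∈ RM := by
    intro i u
    exact ⟨sy (N i) u, by
      show KQ.map 2 (algebraMap F M) (symb ![N i, u]) = _
      rw [map_sy]
      rfl⟩
  -- the spaces over `M`
  let Wσ : (M ≃ₐ[F] M) → Submodule ℚ (KQ M 2) := fun σ =>
    if (∀ y : L, σ (algebraMap L M y) = algebraMap L M y) then ⊥ else
      Submodule.span ℚ {z : KQ M 2 | ∃ (i : Fin r) (u : Mˣ), u ∈ BsX k (algebraMap L M x) D ∧
        z = sy (gg (up L M (f i)) σ) u} ⊓ ⨅ v ∈ VN k M, unitPart v 2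
  have hWσ : ∀ σ, FiniteDimensional ℚ (Wσ σ) := by
    intro σ
    by_cases h : ∀ y : L, σ (algebraMap L M y) = algebraMap L M y
    · have e : Wσ σ = ⊥ := if_pos h
      rw [e]
      infer_instance
    · have e : Wσ σ = _ := if_neg h
      rw [e]
      exact fin_alg (algebraMap L M x) hX _ ((hσ σ).resolve_left h) D
  let W : Submodule ℚ (KQ M 2) := ⨆ σ, Wσ σ
  have hW : FiniteDimensional ℚ W := Submodule.finiteDimensional_iSup _
  -- the entries
  have hmem : ∀ u : Fin r → Fˣ, (∀ i, up F L (u i) ∈ BsX k x D) →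
      (∀ σ : M ≃ₐ[F] M, sig (fun i => gg (up L M (f i)) σ) (fun i => up F M (u i)) ∈
        ⨅ v ∈ VN k M, unitPart v 2) →
      ∀ σ : M ≃ₐ[F] M, sig (fun i => gg (up L M (f i)) σ) (fun i => up F M (u i)) ∈ W := by
    intro u hu hun σ
    by_cases h : ∀ y : L, σ (algebraMap L M y) = algebraMap L M y
    · have h1 : sig (fun i => gg (up L M (f i)) σ) (fun i => up F M (u i)) = 0 := by
        refine Finset.sum_eq_zero fun i _ => ?_
        have h2 : gg (up L M (f i)) σ = 1 := by
          unfold gg
          rw [mul_inv_eq_one]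
          apply Units.ext
          exact h (f i)
        show sy (gg (up L M (f i)) σ) _ = 0
        rw [h2, sy_one_left]
      rw [h1]
      exact Submodule.zero_mem _
    · refine (le_iSup Wσ σ) ?_
      have e : Wσ σ = _ := if_neg h
      rw [e]
      refine ⟨?_, hun σ⟩
      refine Submodule.sum_mem _ fun i _ => Submodule.subset_span ⟨i, up F M (u i), ?_, rfl⟩
      have h1 : up F M (u i) = up L M (up F L (u i)) := Units.ext (IsScalarTower.algebraMap_apply F L M _)
      rw [h1]
      exact bs_up x D _ (hu i)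
  -- the map of the quotients
  let ρ : (KQ L 2 ⧸ R) →ₗ[ℚ] (KQ M 2 ⧸ RM) := Submodule.mapQ R RM (KQ.map 2 (algebraMap L M)) (by
    rintro _ ⟨z, rfl⟩
    refine ⟨z, ?_⟩
    rw [← kmap_comp, ← IsScalarTower.algebraMap_eq])
  have hρ : Function.Injective ρ := by
    rw [← LinearMap.ker_eq_bot, LinearMap.ker_eq_bot']
    intro z hz
    obtain ⟨z, rfl⟩ := Submodule.mkQ_surjective _ z
    rw [Submodule.mkQ_apply] at hz
    rw [Submodule.mapQ_apply, Submodule.Quotient.mk_eq_zero] at hz
    obtain ⟨β, hβ⟩ := hz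
    rw [Submodule.mkQ_apply, Submodule.Quotient.mk_eq_zero]
    refine ⟨β, ?_⟩
    rw [← sub_eq_zero]
    refine inj_alg _ ?_ (F' := M)
    rw [map_sub, ← kmap_comp, ← IsScalarTower.algebraMap_eq, hβ, sub_self]
  set S := {z : KQ L 2 | ∃ (i : Fin r) (u : Fˣ), up F L u ∈ BsX k x D ∧ z = sy (f i) (up F L u)} with hS
  let G : Subgroup Lˣ := BsX k x D ⊓ (Units.map (algebraMap F L : F →* L)).range
  have hSG : S ⊆ {z : KQ L 2 | ∃ (i : Fin r) (u : Lˣ), u ∈ G ∧ z = sy (f i) u} := by
    rintro z ⟨i, u, hu, rfl⟩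
    exact ⟨i, up F L u, ⟨hu, ⟨u, rfl⟩⟩, rfl⟩
  set P := ((Submodule.span ℚ S ⊔ R) ⊓ ⨅ v ∈ VN k L, unitPart v 2).map R.mkQ with hP
  have hle : P.map ρ ≤ W.map RM.mkQ := by
    rintro _ ⟨_, ⟨z, ⟨hz, hun⟩, rfl⟩, rfl⟩
    obtain ⟨a, ha, β, hβ, rfl⟩ := Submodule.mem_sup.1 hz
    obtain ⟨q, w, hw, rfl⟩ := span_sig f G a (Submodule.span_mono hSG ha)
    have hw' : ∀ i, ∃ u : Fˣ, up F L u = w i := fun i => (hw i).2
    choose u hu using hw'
    have hwu : w = fun i => up F L (u i) := funext fun i => (hu i).symm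
    subst hwu
    have hβ0 : R.mkQ β = 0 := by
      rw [Submodule.mkQ_apply, Submodule.Quotient.mk_eq_zero]
      exact hβ
    rw [map_add, hβ0, add_zero]
    by_cases hq : q = 0
    · rw [hq, zero_smul, map_zero, map_zero]
      exact Submodule.zero_mem _
    · have hun' := unram_sig (k := k) (M := M) f q hq u β hβ hun
      have h1 : KQ.map 2 (algebraMap L M) (sig f (fun i => up F L (u i))) =
          sig (fun i => up L M (f i)) (fun i => up F M (u i)) := by
        unfold sig
        rw [map_sum]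
        refine Finset.sum_congr rfl fun i _ => ?_
        show KQ.map 2 (algebraMap L M) (symb ![f i, up F L (u i)]) = _
        rw [map_sy]
        congr 1
        apply Units.ext
        show algebraMap L M (algebraMap F L (u i)) = algebraMap F M (u i)
        rw [← IsScalarTower.algebraMap_apply]
      have h2 : ρ (R.mkQ (q • sig f (fun i => up F L (u i)))) =
          RM.mkQ (q • sig (fun i => up L M (f i)) (fun i => up F M (u i))) := by
        rw [map_smul, map_smul, map_smul, ← h1]
        rfl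
      rw [h2]
      have h3 : sig (fun i => up L M (f i)) (fun i => up F M (u i)) =
          ((Fintype.card (M ≃ₐ[F] M) : ℕ) : ℚ)⁻¹ • (∑ i, sy (up F M (N i)) (up F M (u i)) -
          ∑ σ : M ≃ₐ[F] M, sig (fun i => gg (up L M (f i)) σ) (fun i => up F M (u i))) := by
        have h4 : ((Fintype.card (M ≃ₐ[F] M) : ℕ) : ℚ) • sig (fun i => up L M (f i)) (fun i => up F M (u i)) =
            ∑ i, sy (up F M (N i)) (up F M (u i)) -
              ∑ σ : M ≃ₐ[F] M, sig (fun i => gg (up L M (f i)) σ) (fun i => up F M (u i)) := by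
          unfold sig
          rw [Finset.smul_sum, Finset.sum_comm, ← Finset.sum_sub_distrib]
          exact Finset.sum_congr rfl fun i _ => havg i (u i)
        rw [← h4, smul_smul, inv_mul_cancel₀ hcard, one_smul]
      have h4 : RM.mkQ (∑ i, sy (up F M (N i)) (up F M (u i))) = 0 := by
        rw [Submodule.mkQ_apply, Submodule.Quotient.mk_eq_zero]
        exact Submodule.sum_mem _ fun i _ => hNR i (u i)
      rw [h3, map_smul, map_smul, map_sub, h4, zero_sub]
      refine Submodule.smul_mem _ _ (Submodule.smul_mem _ _ (Submodule.neg_mem _ ?_))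
      exact ⟨_, Submodule.sum_mem _ fun σ _ => hmem u (fun i => (hw i).1) hun' σ, rfl⟩
  have hfinW : FiniteDimensional ℚ ↥(W.map RM.mkQ) := inferInstance
  have hfinP : FiniteDimensional ℚ ↥(P.map ρ) := Submodule.finiteDimensional_of_le hle
  exact LinearEquiv.finiteDimensional (Submodule.equivMapOfInjective ρ hρ P).symm

/-- the relative theorem for intermediate fields -/
theorem rel_alg {k : Type*} {L : Type u} [Field k] [CharZero k] [IsAlgClosed k] [Algebra.IsAlgebraic ℚ k]
    [Field L] [Algebra k L] (x : L) (hx : Transcendental k x) [FiniteDimensional k⟮x⟯ L]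
    (F : IntermediateField k L) [FiniteDimensional F L] {r : ℕ} (f : Fin r → Lˣ)
    (hf : ∀ m : Fin r → ℤ, m ≠ 0 → IntermediateField.adjoin F {((∏ i, f i ^ m i : Lˣ) : L)} = ⊤) (D : ℕ) :
    FiniteDimensional ℚ ↥(((Submodule.span ℚ {z : KQ L 2 | ∃ (i : Fin r) (u : Fˣ),
      up F L u ∈ BsX k x D ∧ z = sy (f i) (up F L u)} ⊔
      LinearMap.range (KQ.map 2 (algebraMap F L))) ⊓ ⨅ v ∈ VN k L, unitPart v 2).map
        (LinearMap.range (KQ.map 2 (algebraMap F L))).mkQ) := by
  have : CharZero L := charZero_of_injective_algebraMap (algebraMap k L).injective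
  let Ω := AlgebraicClosure L
  have h1 : Algebra.IsAlgebraic F Ω := Algebra.IsAlgebraic.trans F L Ω
  have h2 : IsAlgClosure F Ω := ⟨inferInstance, h1⟩
  have h3 : Normal F Ω := IsAlgClosure.normal F Ω
  let M := normalClosure F L Ω
  have i2 : IsScalarTower F L M := inferInstance
  have i3 : FiniteDimensional F M := inferInstance
  have i7 : IsScalarTower k F M := inferInstance
  have i8 : IsScalarTower k L M := IsScalarTower.of_algebraMap_eq fun x => Subtype.ext rfl
  have i4 : Normal F M := inferInstance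
  have i5 : IsGalois F M := ⟨⟩
  have i6 : FiniteDimensional L M := FiniteDimensional.right F L M
  have hX : Transcendental k (algebraMap L M x) := by
    intro h
    exact hx ((isAlgebraic_algebraMap_iff (algebraMap L M).injective).1 h)
  have i9 : FiniteDimensional k⟮algebraMap L M x⟯ M := fin_up x
  refine rel_multi (M := M) x hX f (fun σ => ?_) D
  by_cases hfix : ∀ y : L, σ (algebraMap L M y) = algebraMap L M y
  · exact Or.inl hfix
  · refine Or.inr fun m hm => ?_
    by_contra hne
    apply hfix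
    have e : ∏ i, gg (up L M (f i)) σ ^ m i = gg (up L M (∏ i, f i ^ m i)) σ := by
      unfold gg up
      rw [map_prod, map_prod]
      simp only [map_zpow, mul_zpow, Finset.prod_mul_distrib, inv_zpow, Finset.prod_inv_distrib]
    rw [e] at hm
    obtain ⟨c, hc⟩ := alg_const hm
    set g : Lˣ := ∏ i, f i ^ m i with hg
    have hσc : σ (algebraMap k M c) = algebraMap k M c := by
      rw [IsScalarTower.algebraMap_apply k F M]
      exact σ.commutes _
    have hσg : σ (algebraMap L M (g : L)) = algebraMap k M c * algebraMap L M (g : L) := by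
      rw [hc]
      show σ (algebraMap L M (g : L)) = (σ (algebraMap L M (g : L)) * (((up L M g)⁻¹ : Mˣ) : M)) *
        algebraMap L M (g : L)
      rw [mul_assoc]
      have h4 : (((up L M g)⁻¹ : Mˣ) : M) * algebraMap L M (g : L) = 1 := (up L M g).inv_mul
      rw [h4, mul_one]
    have hpow : ∀ j : ℕ, (σ ^ j) (algebraMap L M (g : L)) = (algebraMap k M c) ^ j * algebraMap L M (g : L) := by
      intro j
      induction j with
      | zero => rw [pow_zero, pow_zero, one_mul]; rfl
      | succ j ih =>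
        rw [pow_succ' σ, AlgEquiv.mul_apply, ih, map_mul, map_pow, hσc, hσg, pow_succ]
        ring
    have hn : 0 < orderOf σ := orderOf_pos σ
    have hgM : algebraMap L M (g : L) ≠ 0 := by
      rw [Ne, map_eq_zero]
      exact g.ne_zero
    have hcn : (algebraMap k M c) ^ orderOf σ = 1 := by
      have h4 := hpow (orderOf σ)
      rw [pow_orderOf_eq_one] at h4
      have h5 : (1 : M) * algebraMap L M (g : L) = (algebraMap k M c) ^ orderOf σ * algebraMap L M (g : L) := by
        rw [one_mul]
        exact h4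
      exact (mul_right_cancel₀ hgM h5).symm
    have hfixg : σ (algebraMap L M ((g : L) ^ orderOf σ)) = algebraMap L M ((g : L) ^ orderOf σ) := by
      rw [map_pow, map_pow, hσg, mul_pow, hcn, one_mul]
    have htop := hf (fun i => (orderOf σ : ℤ) * m i) (fun h0 => hne (funext fun i => by
      have h4 := congrFun h0 i
      simp only [Pi.zero_apply] at h4
      rcases mul_eq_zero.1 h4 with h5 | h5
      · exact absurd h5 (by exact_mod_cast hn.ne')
      · exact h5))
    have hgn : ((∏ i, f i ^ ((orderOf σ : ℤ) * m i) : Lˣ) : L) = (g : L) ^ orderOf σ := by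
      rw [hg, ← Units.val_pow_eq_pow_val, ← Finset.prod_pow]
      congr 1
      refine Finset.prod_congr rfl fun i _ => ?_
      rw [mul_comm, zpow_mul, zpow_natCast]
    rw [hgn] at htop
    intro y
    have hy : y ∈ IntermediateField.adjoin F {(g : L) ^ orderOf σ} := by
      rw [htop]
      exact IntermediateField.mem_top
    induction hy using IntermediateField.adjoin_induction with
    | mem z hz =>
      rw [Set.mem_singleton_iff.1 hz]
      exact hfixg
    | algebraMap z =>
      rw [← IsScalarTower.algebraMap_apply F L M]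
      exact σ.commutes z
    | add a b _ _ ha hb => rw [map_add, map_add, ha, hb]
    | mul a b _ _ ha hb => rw [map_mul, map_mul, ha, hb]
    | inv a _ ha => rw [map_inv₀, map_inv₀, ha]

/-- the relative theorem for families all of whose products are in `F` or generate `L` -/
theorem rel_dep {k : Type*} {L : Type u} [Field k] [CharZero k] [IsAlgClosed k] [Algebra.IsAlgebraic ℚ k]
    [Field L] [Algebra k L] (x : L) (hx : Transcendental k x) [FiniteDimensional k⟮x⟯ L]
    (F : IntermediateField k L) [FiniteDimensional F L] {r : ℕ} (f : Fin r → Lˣ)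
    (hf : ∀ m : Fin r → ℤ, ((∏ i, f i ^ m i : Lˣ) : L) ∈ F ∨
      IntermediateField.adjoin F {((∏ i, f i ^ m i : Lˣ) : L)} = ⊤) (D : ℕ) :
    FiniteDimensional ℚ ↥(((Submodule.span ℚ {z : KQ L 2 | ∃ (i : Fin r) (u : Fˣ),
      up F L u ∈ BsX k x D ∧ z = sy (f i) (up F L u)} ⊔
      LinearMap.range (KQ.map 2 (algebraMap F L))) ⊓ ⨅ v ∈ VN k L, unitPart v 2).map
        (LinearMap.range (KQ.map 2 (algebraMap F L))).mkQ) := by
  classical
  set R := LinearMap.range (KQ.map 2 (algebraMap F L)) with hR
  let Ind : Finset (Fin r) → Prop := fun J => ∀ m : Fin r → ℤ, (∀ i, i ∉ J → m i = 0) →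
    ((∏ i, f i ^ m i : Lˣ) : L) ∈ F → m = 0
  obtain ⟨J, hJ, hmax⟩ := Finset.exists_max_image (Finset.univ.filter Ind) Finset.card
    ⟨∅, by
      rw [Finset.mem_filter]
      exact ⟨Finset.mem_univ _, fun m hm _ => funext fun i => hm i (Finset.notMem_empty i)⟩⟩
  have hJ' : Ind J := (Finset.mem_filter.1 hJ).2
  let f' : Fin J.card → Lˣ := fun t => f (J.equivFin.symm t)
  have hf' : ∀ m' : Fin J.card → ℤ, m' ≠ 0 →
      IntermediateField.adjoin F {((∏ t, f' t ^ m' t : Lˣ) : L)} = ⊤ := by
    intro m' hm'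
    let m : Fin r → ℤ := fun i => if h : i ∈ J then m' (J.equivFin ⟨i, h⟩) else 0
    have hprod : ∏ i, f i ^ m i = ∏ t, f' t ^ m' t := by
      have h1 : ∏ i, f i ^ m i = ∏ i ∈ J, f i ^ m i := by
        refine (Finset.prod_subset (Finset.subset_univ J) fun i _ hi => ?_).symm
        show f i ^ m i = 1
        have h2 : m i = 0 := dif_neg hi
        rw [h2, zpow_zero]
      rw [h1, ← Finset.prod_coe_sort J, ← Equiv.prod_comp J.equivFin.symm]
      refine Finset.prod_congr rfl fun t _ => ?_
      have h2 : m (J.equivFin.symm t) = m' t := by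
        show (if h : ((J.equivFin.symm t : J) : Fin r) ∈ J then m' (J.equivFin ⟨_, h⟩) else 0) = m' t
        rw [dif_pos (J.equivFin.symm t).2]
        congr 1
        exact J.equivFin.apply_symm_apply t
      rw [h2]
    rw [← hprod]
    refine (hf m).resolve_left fun hmem => hm' ?_
    have h1 := hJ' m (fun i hi => dif_neg hi) hmem
    funext t
    have h2 := congrFun h1 (J.equivFin.symm t)
    have h3 : m (J.equivFin.symm t) = m' t := by
      show (if h : ((J.equivFin.symm t : J) : Fin r) ∈ J then m' (J.equivFin ⟨_, h⟩) else 0) = m' t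
      rw [dif_pos (J.equivFin.symm t).2]
      congr 1
      exact J.equivFin.apply_symm_apply t
    rw [← h3]
    exact h2
  have hfin := rel_alg x hx F f' hf' D
  set S' := {z : KQ L 2 | ∃ (i : Fin J.card) (u : Fˣ), up F L u ∈ BsX k x D ∧ z = sy (f' i) (up F L u)} with hS'
  have hJmem : ∀ i ∈ J, ∀ u : Fˣ, up F L u ∈ BsX k x D → sy (f i) (up F L u) ∈ Submodule.span ℚ S' ⊔ R := by
    intro i hi u hu
    refine Submodule.mem_sup_left (Submodule.subset_span ⟨J.equivFin ⟨i, hi⟩, u, hu, ?_⟩)
    show sy (f i) (up F L u) = sy (f (J.equivFin.symm (J.equivFin ⟨i, hi⟩))) (up F L u)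
    rw [Equiv.symm_apply_apply]
  have hall : ∀ j, ∀ u : Fˣ, up F L u ∈ BsX k x D → sy (f j) (up F L u) ∈ Submodule.span ℚ S' ⊔ R := by
    intro j u hu
    by_cases hj : j ∈ J
    · exact hJmem j hj u hu
    · have hnot : ¬ Ind (insert j J) := by
        intro h
        have h1 := hmax (insert j J) (Finset.mem_filter.2 ⟨Finset.mem_univ _, h⟩)
        rw [Finset.card_insert_of_notMem hj] at h1
        omega
      have hnot' : ∃ m : Fin r → ℤ, (∀ i, i ∉ insert j J → m i = 0) ∧
          ((∏ i, f i ^ m i : Lˣ) : L) ∈ F ∧ m ≠ 0 := by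
        by_contra hcon
        push Not at hcon
        exact hnot fun m h1 h2 => hcon m h1 h2
      obtain ⟨m, hm1, hm2, hm3⟩ := hnot'
      have hmj : m j ≠ 0 := by
        intro h0
        apply hm3
        refine hJ' m (fun i hi => ?_) hm2
        by_cases hij : i = j
        · rw [hij, h0]
        · refine hm1 i fun h => ?_
          rcases Finset.mem_insert.1 h with h | h
          · exact hij h
          · exact hi h
      have hsum : ∑ i, (m i : ℚ) • sy (f i) (up F L u) ∈ Submodule.span ℚ S' ⊔ R := by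
        have h1 : ∑ i, (m i : ℚ) • sy (f i) (up F L u) = sy (∏ i, f i ^ m i) (up F L u) := by
          rw [Pool.Agent.Helper79.QP.sy_prod_left]
          exact Finset.sum_congr rfl fun i _ => (sy_zpow_left _ _ _).symm
        rw [h1]
        refine Submodule.mem_sup_right ?_
        have h0 : (⟨((∏ i, f i ^ m i : Lˣ) : L), hm2⟩ : F) ≠ 0 := fun h =>
          (Units.ne_zero (∏ i, f i ^ m i : Lˣ)) (congrArg Subtype.val h)
        refine ⟨sy (Units.mk0 _ h0) u, ?_⟩
        show KQ.map 2 (algebraMap F L) (symb ![Units.mk0 _ h0, u]) = _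
        rw [map_sy]
        congr 1
        exact Units.ext rfl
      have hrest : ∑ i ∈ Finset.univ.erase j, (m i : ℚ) • sy (f i) (up F L u) ∈ Submodule.span ℚ S' ⊔ R := by
        refine Submodule.sum_mem _ fun i hi => ?_
        by_cases hiJ : i ∈ J
        · exact Submodule.smul_mem _ _ (hJmem i hiJ u hu)
        · have h1 : m i = 0 := hm1 i fun h => by
            rcases Finset.mem_insert.1 h with h | h
            · exact (Finset.mem_erase.1 hi).1 h
            · exact hiJ h
          rw [h1, Int.cast_zero, zero_smul]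
          exact Submodule.zero_mem _
      have h1 : (m j : ℚ) • sy (f j) (up F L u) ∈ Submodule.span ℚ S' ⊔ R := by
        have h2 := Submodule.sub_mem _ hsum hrest
        rw [← Finset.add_sum_erase _ _ (Finset.mem_univ j), add_sub_cancel_right] at h2
        exact h2
      have h2 := Submodule.smul_mem _ ((m j : ℚ)⁻¹) h1
      rwa [smul_smul, inv_mul_cancel₀ (by exact_mod_cast hmj), one_smul] at h2
  refine Submodule.finiteDimensional_of_le (S₂ := ((Submodule.span ℚ S' ⊔ R) ⊓
    ⨅ v ∈ VN k L, unitPart v 2).map R.mkQ) (Submodule.map_mono (inf_le_inf_right _ (sup_le ?_ le_sup_right)))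
  rw [Submodule.span_le]
  rintro _ ⟨j, u, hu, rfl⟩
  exact hall j u hu

end Pool.Agent.Helper79.HT
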