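import Pool.Agent.Helper79.HT.Relf

set_option autoImplicit false

/-!
# The relative theorem for arbitrary finite families of functions
-/

namespace Pool.Agent.Helper79.HT

open scoped WithZero
open Polynomial IntermediateField Module
open Pool.Agent.TH826.MK (KQ symb KQ.map KQ.map_symb unitPart)
open Pool.Agent.Helper537_Sym
open Pool.Agent.Helper79.FE (VN exists_norm unram_map)
open Pool.Agent.Helper79.BT (kmap_comp inj_alg)
open Pool.Agent.Helper79.QP (up up_mul up_val gg norm_mem fin_up alg_const)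

universe u

/-- the absolute theorem if all constant products are roots of unity -/
theorem fin_alg_dep {K L : Type*} [Field K] [Field L] [Algebra K L] [CharZero K] [Algebra.IsAlgebraic ℚ K]
    (x : L) (hx : Transcendental K x) [FiniteDimensional K⟮x⟯ L] {r : ℕ} (f : Fin r → Lˣ)
    (hf : ∀ m : Fin r → ℤ, IsAlgebraic K ((∏ i, f i ^ m i : Lˣ) : L) →
      ∃ n : ℕ, 0 < n ∧ (∏ i, f i ^ m i : Lˣ) ^ n = 1) (D : ℕ) :
    FiniteDimensional ℚ ↥(Submodule.span ℚ {z : KQ L 2 | ∃ (i : Fin r) (u : Lˣ), u ∈ BsX K x D ∧ z = sy (f i) u} ⊓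
      ⨅ v ∈ VN K L, unitPart v 2) := by
  classical
  let Ind : Finset (Fin r) → Prop := fun J => ∀ m : Fin r → ℤ, (∀ i, i ∉ J → m i = 0) →
    IsAlgebraic K ((∏ i, f i ^ m i : Lˣ) : L) → m = 0
  obtain ⟨J, hJ, hmax⟩ := Finset.exists_max_image (Finset.univ.filter Ind) Finset.card
    ⟨∅, by
      rw [Finset.mem_filter]
      exact ⟨Finset.mem_univ _, fun m hm _ => funext fun i => hm i (Finset.notMem_empty i)⟩⟩
  have hJ' : Ind J := (Finset.mem_filter.1 hJ).2
  let f' : Fin J.card → Lˣ := fun t => f (J.equivFin.symm t)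
  have hf' : ∀ m' : Fin J.card → ℤ, IsAlgebraic K ((∏ t, f' t ^ m' t : Lˣ) : L) → m' = 0 := by
    intro m' hm'
    let m : Fin r → ℤ := fun i => if h : i ∈ J then m' (J.equivFin ⟨i, h⟩) else 0
    have hval : ∀ t, m (J.equivFin.symm t) = m' t := by
      intro t
      show (if h : ((J.equivFin.symm t : J) : Fin r) ∈ J then m' (J.equivFin ⟨_, h⟩) else 0) = m' t
      rw [dif_pos (J.equivFin.symm t).2]
      congr 1
      exact J.equivFin.apply_symm_apply t
    have hprod : ∏ i, f i ^ m i = ∏ t, f' t ^ m' t := by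
      have h1 : ∏ i, f i ^ m i = ∏ i ∈ J, f i ^ m i := by
        refine (Finset.prod_subset (Finset.subset_univ J) fun i _ hi => ?_).symm
        show f i ^ m i = 1
        have h2 : m i = 0 := dif_neg hi
        rw [h2, zpow_zero]
      rw [h1, ← Finset.prod_coe_sort J, ← Equiv.prod_comp J.equivFin.symm]
      refine Finset.prod_congr rfl fun t _ => ?_
      rw [hval]
    rw [← hprod] at hm'
    have h1 := hJ' m (fun i hi => dif_neg hi) hm'
    funext t
    rw [← hval]
    exact congrFun h1 _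
  have hfin := fin_alg x hx f' hf' D
  set S' := {z : KQ L 2 | ∃ (i : Fin J.card) (u : Lˣ), u ∈ BsX K x D ∧ z = sy (f' i) u} with hS'
  have hJmem : ∀ i ∈ J, ∀ u ∈ BsX K x D, sy (f i) u ∈ Submodule.span ℚ S' := by
    intro i hi u hu
    refine Submodule.subset_span ⟨J.equivFin ⟨i, hi⟩, u, hu, ?_⟩
    show sy (f i) u = sy (f (J.equivFin.symm (J.equivFin ⟨i, hi⟩))) u
    rw [Equiv.symm_apply_apply]
  have hall : ∀ j, ∀ u ∈ BsX K x D, sy (f j) u ∈ Submodule.span ℚ S' := by
    intro j u hu
    by_cases hj : j ∈ J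
    · exact hJmem j hj u hu
    · have hnot : ¬ Ind (insert j J) := by
        intro h
        have h1 := hmax (insert j J) (Finset.mem_filter.2 ⟨Finset.mem_univ _, h⟩)
        rw [Finset.card_insert_of_notMem hj] at h1
        omega
      have hnot' : ∃ m : Fin r → ℤ, (∀ i, i ∉ insert j J → m i = 0) ∧
          IsAlgebraic K ((∏ i, f i ^ m i : Lˣ) : L) ∧ m ≠ 0 := by
        by_contra hcon
        push Not at hcon
        exact hnot fun m h1 h2 => hcon m h1 h2
      obtain ⟨m, hm1, hm2, hm3⟩ := hnot'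
      have hmj : m j ≠ 0 := by
        intro h0
        apply hm3
        refine hJ' m (fun i hi => ?_) hm2
        by_cases hij : i = j
        · rw [hij, h0]
        · refine hm1 i fun h => ?_
          rcases Finset.mem_insert.1 h with h | h
          · exact hij h
          · exact hi h
      have hsum : ∑ i, (m i : ℚ) • sy (f i) u ∈ Submodule.span ℚ S' := by
        have h1 : ∑ i, (m i : ℚ) • sy (f i) u = sy (∏ i, f i ^ m i) u := by
          rw [Pool.Agent.Helper79.QP.sy_prod_left]
          exact Finset.sum_congr rfl fun i _ => (sy_zpow_left _ _ _).symm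
        obtain ⟨n, hn, h2⟩ := hf m hm2
        rw [h1, Pool.Agent.Helper79.QP.sy_tors_left _ u n hn h2]
        exact Submodule.zero_mem _
      have hrest : ∑ i ∈ Finset.univ.erase j, (m i : ℚ) • sy (f i) u ∈ Submodule.span ℚ S' := by
        refine Submodule.sum_mem _ fun i hi => ?_
        by_cases hiJ : i ∈ J
        · exact Submodule.smul_mem _ _ (hJmem i hiJ u hu)
        · have h1 : m i = 0 := hm1 i fun h => by
            rcases Finset.mem_insert.1 h with h | h
            · exact (Finset.mem_erase.1 hi).1 h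
            · exact hiJ h
          rw [h1, Int.cast_zero, zero_smul]
          exact Submodule.zero_mem _
      have h1 : (m j : ℚ) • sy (f j) u ∈ Submodule.span ℚ S' := by
        have h2 := Submodule.sub_mem _ hsum hrest
        rw [← Finset.add_sum_erase _ _ (Finset.mem_univ j), add_sub_cancel_right] at h2
        exact h2
      have h2 := Submodule.smul_mem _ ((m j : ℚ)⁻¹) h1
      rwa [smul_smul, inv_mul_cancel₀ (by exact_mod_cast hmj), one_smul] at h2
  refine Submodule.finiteDimensional_of_le (S₂ := Submodule.span ℚ S' ⊓ ⨅ v ∈ VN K L, unitPart v 2)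
    (inf_le_inf_right _ ?_)
  rw [Submodule.span_le]
  rintro _ ⟨j, u, hu, rfl⟩
  exact hall j u hu

variable {k F : Type*} {L M : Type u} [Field k] [Field F]
  [Field L] [Field M] [Algebra k F] [Algebra k L] [Algebra F L]
  [Algebra k M] [Algebra F M] [Algebra L M] [IsScalarTower k F L] [IsScalarTower k L M] [IsScalarTower F L M]
  [IsScalarTower k F M]

omit [IsScalarTower k F L] in
theorem rel_multi_all [CharZero k] [Algebra.IsAlgebraic ℚ k] [FiniteDimensional F M] [IsGalois F M]
    [Algebra.IsAlgebraic L M] (x : L)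
    (hX : Transcendental k (algebraMap L M x)) [FiniteDimensional k⟮algebraMap L M x⟯ M] {r : ℕ}
    (f : Fin r → Lˣ) (hσ : ∀ (σ : M ≃ₐ[F] M) (m : Fin r → ℤ),
      IsAlgebraic k ((∏ i, gg (up L M (f i)) σ ^ m i : Mˣ) : M) →
      ∃ n : ℕ, 0 < n ∧ (∏ i, gg (up L M (f i)) σ ^ m i : Mˣ) ^ n = 1) (D : ℕ) :
    FiniteDimensional ℚ ↥(((Submodule.span ℚ {z : KQ L 2 | ∃ (i : Fin r) (u : Fˣ),
      up F L u ∈ BsX k x D ∧ z = sy (f i) (up F L u)} ⊔
      LinearMap.range (KQ.map 2 (algebraMap F L))) ⊓ ⨅ v ∈ VN k L, unitPart v 2).map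
        (LinearMap.range (KQ.map 2 (algebraMap F L))).mkQ) := by
  classical
  have : Fintype (M ≃ₐ[F] M) := Fintype.ofFinite _
  set R := LinearMap.range (KQ.map 2 (algebraMap F L)) with hR
  set RM := LinearMap.range (KQ.map 2 (algebraMap F M)) with hRM
  have hN : ∀ i, ∃ c : Fˣ, up F M c = ∏ σ : M ≃ₐ[F] M, Units.map (σ : M →* M) (up L M (f i)) := fun i =>
    norm_mem (F := F) (up L M (f i))
  choose N hN using hN
  have hcard : ((Fintype.card (M ≃ₐ[F] M) : ℕ) : ℚ) ≠ 0 := by exact_mod_cast Fintype.card_ne_zero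
  -- the average
  have havg : ∀ (i : Fin r) (u : Fˣ), ((Fintype.card (M ≃ₐ[F] M) : ℕ) : ℚ) • sy (up L M (f i)) (up F M u) =
      sy (up F M (N i)) (up F M u) - ∑ σ : M ≃ₐ[F] M, sy (gg (up L M (f i)) σ) (up F M u) := by
    intro i u
    have hprod : ∏ σ : M ≃ₐ[F] M, gg (up L M (f i)) σ =
        up F M (N i) * (up L M (f i) ^ (Fintype.card (M ≃ₐ[F] M)))⁻¹ := by
      rw [hN]
      simp only [gg, Finset.prod_mul_distrib, Finset.prod_const, Finset.card_univ, inv_pow]
    rw [← Pool.Agent.Helper79.QP.sy_prod_left, hprod, sy_mul_left, sy_inv_left, sy_pow_left]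
    abel
  have hNR : ∀ (i : Fin r) (u : Fˣ), sy (up F M (N i)) (up F M u) ∈ RM := by
    intro i u
    exact ⟨sy (N i) u, by
      show KQ.map 2 (algebraMap F M) (symb ![N i, u]) = _
      rw [map_sy]
      rfl⟩
  -- the spaces over `M`
  let Wσ : (M ≃ₐ[F] M) → Submodule ℚ (KQ M 2) := fun σ =>
    Submodule.span ℚ {z : KQ M 2 | ∃ (i : Fin r) (u : Mˣ), u ∈ BsX k (algebraMap L M x) D ∧
      z = sy (gg (up L M (f i)) σ) u} ⊓ ⨅ v ∈ VN k M, unitPart v 2
  have hWσ : ∀ σ, FiniteDimensional ℚ (Wσ σ) := fun σ => fin_alg_dep (algebraMap L M x) hX _ (hσ σ) D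
  let W : Submodule ℚ (KQ M 2) := ⨆ σ, Wσ σ
  have hW : FiniteDimensional ℚ W := Submodule.finiteDimensional_iSup _
  -- the entries
  have hmem : ∀ u : Fin r → Fˣ, (∀ i, up F L (u i) ∈ BsX k x D) →
      (∀ σ : M ≃ₐ[F] M, sig (fun i => gg (up L M (f i)) σ) (fun i => up F M (u i)) ∈
        ⨅ v ∈ VN k M, unitPart v 2) →
      ∀ σ : M ≃ₐ[F] M, sig (fun i => gg (up L M (f i)) σ) (fun i => up F M (u i)) ∈ W := by
    intro u hu hun σ
    refine (le_iSup Wσ σ) ⟨?_, hun σ⟩
    refine Submodule.sum_mem _ fun i _ => Submodule.subset_span ⟨i, up F M (u i), ?_, rfl⟩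
    have h1 : up F M (u i) = up L M (up F L (u i)) := Units.ext (IsScalarTower.algebraMap_apply F L M _)
    rw [h1]
    exact bs_up x D _ (hu i)
  -- the map of the quotients
  let ρ : (KQ L 2 ⧸ R) →ₗ[ℚ] (KQ M 2 ⧸ RM) := Submodule.mapQ R RM (KQ.map 2 (algebraMap L M)) (by
    rintro _ ⟨z, rfl⟩
    refine ⟨z, ?_⟩
    rw [← kmap_comp, ← IsScalarTower.algebraMap_eq])
  have hρ : Function.Injective ρ := by
    rw [← LinearMap.ker_eq_bot, LinearMap.ker_eq_bot']
    intro z hz
    obtain ⟨z, rfl⟩ := Submodule.mkQ_surjective _ z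
    rw [Submodule.mkQ_apply] at hz
    rw [Submodule.mapQ_apply, Submodule.Quotient.mk_eq_zero] at hz
    obtain ⟨β, hβ⟩ := hz
    rw [Submodule.mkQ_apply, Submodule.Quotient.mk_eq_zero]
    refine ⟨β, ?_⟩
    rw [← sub_eq_zero]
    refine inj_alg _ ?_ (F' := M)
    rw [map_sub, ← kmap_comp, ← IsScalarTower.algebraMap_eq, hβ, sub_self]
  set S := {z : KQ L 2 | ∃ (i : Fin r) (u : Fˣ), up F L u ∈ BsX k x D ∧ z = sy (f i) (up F L u)} with hS
  let G : Subgroup Lˣ := BsX k x D ⊓ (Units.map (algebraMap F L : F →* L)).range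
  have hSG : S ⊆ {z : KQ L 2 | ∃ (i : Fin r) (u : Lˣ), u ∈ G ∧ z = sy (f i) u} := by
    rintro z ⟨i, u, hu, rfl⟩
    exact ⟨i, up F L u, ⟨hu, ⟨u, rfl⟩⟩, rfl⟩
  set P := ((Submodule.span ℚ S ⊔ R) ⊓ ⨅ v ∈ VN k L, unitPart v 2).map R.mkQ with hP
  have hle : P.map ρ ≤ W.map RM.mkQ := by
    rintro _ ⟨_, ⟨z, ⟨hz, hun⟩, rfl⟩, rfl⟩
    obtain ⟨a, ha, β, hβ, rfl⟩ := Submodule.mem_sup.1 hz
    obtain ⟨q, w, hw, rfl⟩ := span_sig f G a (Submodule.span_mono hSG ha)
    have hw' : ∀ i, ∃ u : Fˣ, up F L u = w i := fun i => (hw i).2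
    choose u hu using hw'
    have hwu : w = fun i => up F L (u i) := funext fun i => (hu i).symm
    subst hwu
    have hβ0 : R.mkQ β = 0 := by
      rw [Submodule.mkQ_apply, Submodule.Quotient.mk_eq_zero]
      exact hβ
    rw [map_add, hβ0, add_zero]
    by_cases hq : q = 0
    · rw [hq, zero_smul, map_zero, map_zero]
      exact Submodule.zero_mem _
    · have hun' := unram_sig (k := k) (M := M) f q hq u β hβ hun
      have h1 : KQ.map 2 (algebraMap L M) (sig f (fun i => up F L (u i))) =
          sig (fun i => up L M (f i)) (fun i => up F M (u i)) := by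
        unfold sig
        rw [map_sum]
        refine Finset.sum_congr rfl fun i _ => ?_
        show KQ.map 2 (algebraMap L M) (symb ![f i, up F L (u i)]) = _
        rw [map_sy]
        congr 1
        apply Units.ext
        show algebraMap L M (algebraMap F L (u i)) = algebraMap F M (u i)
        rw [← IsScalarTower.algebraMap_apply]
      have h2 : ρ (R.mkQ (q • sig f (fun i => up F L (u i)))) =
          RM.mkQ (q • sig (fun i => up L M (f i)) (fun i => up F M (u i))) := by
        rw [map_smul, map_smul, map_smul, ← h1]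
        rfl
      rw [h2]
      have h3 : sig (fun i => up L M (f i)) (fun i => up F M (u i)) =
          ((Fintype.card (M ≃ₐ[F] M) : ℕ) : ℚ)⁻¹ • (∑ i, sy (up F M (N i)) (up F M (u i)) -
          ∑ σ : M ≃ₐ[F] M, sig (fun i => gg (up L M (f i)) σ) (fun i => up F M (u i))) := by
        have h4 : ((Fintype.card (M ≃ₐ[F] M) : ℕ) : ℚ) • sig (fun i => up L M (f i)) (fun i => up F M (u i)) =
            ∑ i, sy (up F M (N i)) (up F M (u i)) -
              ∑ σ : M ≃ₐ[F] M, sig (fun i => gg (up L M (f i)) σ) (fun i => up F M (u i)) := by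
          unfold sig
          rw [Finset.smul_sum, Finset.sum_comm, ← Finset.sum_sub_distrib]
          exact Finset.sum_congr rfl fun i _ => havg i (u i)
        rw [← h4, smul_smul, inv_mul_cancel₀ hcard, one_smul]
      have h4 : RM.mkQ (∑ i, sy (up F M (N i)) (up F M (u i))) = 0 := by
        rw [Submodule.mkQ_apply, Submodule.Quotient.mk_eq_zero]
        exact Submodule.sum_mem _ fun i _ => hNR i (u i)
      rw [h3, map_smul, map_smul, map_sub, h4, zero_sub]
      refine Submodule.smul_mem _ _ (Submodule.smul_mem _ _ (Submodule.neg_mem _ ?_))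
      exact ⟨_, Submodule.sum_mem _ fun σ _ => hmem u (fun i => (hw i).1) hun' σ, rfl⟩
  have hfinW : FiniteDimensional ℚ ↥(W.map RM.mkQ) := inferInstance
  have hfinP : FiniteDimensional ℚ ↥(P.map ρ) := Submodule.finiteDimensional_of_le hle
  exact LinearEquiv.finiteDimensional (Submodule.equivMapOfInjective ρ hρ P).symm

/-- the relative theorem for intermediate fields, without any condition on the functions -/
theorem rel_all {k : Type*} {L : Type u} [Field k] [CharZero k] [IsAlgClosed k] [Algebra.IsAlgebraic ℚ k]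
    [Field L] [Algebra k L] (x : L) (hx : Transcendental k x) [FiniteDimensional k⟮x⟯ L]
    (F : IntermediateField k L) [FiniteDimensional F L] {r : ℕ} (f : Fin r → Lˣ) (D : ℕ) :
    FiniteDimensional ℚ ↥(((Submodule.span ℚ {z : KQ L 2 | ∃ (i : Fin r) (u : Fˣ),
      up F L u ∈ BsX k x D ∧ z = sy (f i) (up F L u)} ⊔
      LinearMap.range (KQ.map 2 (algebraMap F L))) ⊓ ⨅ v ∈ VN k L, unitPart v 2).map
        (LinearMap.range (KQ.map 2 (algebraMap F L))).mkQ) := by
  have : CharZero L := charZero_of_injective_algebraMap (algebraMap k L).injective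
  let Ω := AlgebraicClosure L
  have h1 : Algebra.IsAlgebraic F Ω := Algebra.IsAlgebraic.trans F L Ω
  have h2 : IsAlgClosure F Ω := ⟨inferInstance, h1⟩
  have h3 : Normal F Ω := IsAlgClosure.normal F Ω
  let M := normalClosure F L Ω
  have i2 : IsScalarTower F L M := inferInstance
  have i3 : FiniteDimensional F M := inferInstance
  have i7 : IsScalarTower k F M := inferInstance
  have i8 : IsScalarTower k L M := IsScalarTower.of_algebraMap_eq fun x => Subtype.ext rfl
  have i4 : Normal F M := inferInstance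
  have i5 : IsGalois F M := ⟨⟩
  have i6 : FiniteDimensional L M := FiniteDimensional.right F L M
  have hX : Transcendental k (algebraMap L M x) := by
    intro h
    exact hx ((isAlgebraic_algebraMap_iff (algebraMap L M).injective).1 h)
  have i9 : FiniteDimensional k⟮algebraMap L M x⟯ M := fin_up x
  refine rel_multi_all (M := M) x hX f (fun σ m hm => ?_) D
  have e : ∏ i, gg (up L M (f i)) σ ^ m i = gg (up L M (∏ i, f i ^ m i)) σ := by
    unfold gg up
    rw [map_prod, map_prod]
    simp only [map_zpow, mul_zpow, Finset.prod_mul_distrib, inv_zpow, Finset.prod_inv_distrib]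
  rw [e] at hm
  rw [e]
  obtain ⟨c, hc⟩ := alg_const hm
  set g : Lˣ := ∏ i, f i ^ m i with hg
  have hσc : σ (algebraMap k M c) = algebraMap k M c := by
    rw [IsScalarTower.algebraMap_apply k F M]
    exact σ.commutes _
  have hσg : σ (algebraMap L M (g : L)) = algebraMap k M c * algebraMap L M (g : L) := by
    rw [hc]
    show σ (algebraMap L M (g : L)) = (σ (algebraMap L M (g : L)) * (((up L M g)⁻¹ : Mˣ) : M)) *
      algebraMap L M (g : L)
    rw [mul_assoc]
    have h4 : (((up L M g)⁻¹ : Mˣ) : M) * algebraMap L M (g : L) = 1 := (up L M g).inv_mul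
    rw [h4, mul_one]
  have hpow : ∀ j : ℕ, (σ ^ j) (algebraMap L M (g : L)) = (algebraMap k M c) ^ j * algebraMap L M (g : L) := by
    intro j
    induction j with
    | zero => rw [pow_zero, pow_zero, one_mul]; rfl
    | succ j ih =>
      rw [pow_succ' σ, AlgEquiv.mul_apply, ih, map_mul, map_pow, hσc, hσg, pow_succ]
      ring
  have hgM : algebraMap L M (g : L) ≠ 0 := by
    rw [Ne, map_eq_zero]
    exact g.ne_zero
  refine ⟨orderOf σ, orderOf_pos σ, ?_⟩
  apply Units.ext
  rw [Units.val_pow_eq_pow_val, Units.val_one, ← hc]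
  have h4 := hpow (orderOf σ)
  rw [pow_orderOf_eq_one] at h4
  have h5 : (1 : M) * algebraMap L M (g : L) = (algebraMap k M c) ^ orderOf σ * algebraMap L M (g : L) := by
    rw [one_mul]
    exact h4
  exact (mul_right_cancel₀ hgM h5).symm

end Pool.Agent.Helper79.HT
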