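import Pool.Agent.Helper79.HT.Relg

set_option autoImplicit false

/-!
# The relative theorem for all fields of constants which are algebraic over the rational numbers
-/

namespace Pool.Agent.Helper79.HT

open scoped WithZero
open Polynomial IntermediateField Module
open Pool.Agent.TH826.MK (KQ symb KQ.map KQ.map_symb unitPart)
open Pool.Agent.Helper537_Sym
open Pool.Agent.Helper79.FE (VN)
open Pool.Agent.Helper79.QP (up gg fin_up)

universe u

/-- constant quotients of conjugates are roots of unity -/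
theorem tors_of_const {k F L M : Type*} [Field k] [Field F] [Field L] [Field M] [Algebra k F] [Algebra k L]
    [Algebra F L] [Algebra k M] [Algebra F M] [Algebra L M] [IsScalarTower k F M] [IsScalarTower k L M]
    [IsScalarTower F L M] [FiniteDimensional F M] [FiniteDimensional L M] [IsGalois L M]
    (hcl : ∀ x : L, IsAlgebraic k x → ∃ c : k, algebraMap k L c = x) (g : Lˣ) (σ : M ≃ₐ[F] M)
    (h : IsAlgebraic k (gg (up L M g) σ : M)) : ∃ n : ℕ, 0 < n ∧ gg (up L M g) σ ^ n = 1 := by
  classical
  obtain ⟨γ, hγdef⟩ : ∃ γ : M, γ = algebraMap L M (g : L) := ⟨_, rfl⟩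
  have hγ : γ ≠ 0 := by
    rw [hγdef, Ne, map_eq_zero]
    exact g.ne_zero
  have hggσ : (gg (up L M g) σ : M) = σ γ / γ := by
    rw [hγdef]
    show σ (algebraMap L M (g : L)) * (((up L M g)⁻¹ : Mˣ) : M) = _
    rw [Units.val_inv_eq_inv_val, div_eq_mul_inv]
    rfl
  have halg : ∀ (a : M ≃ₐ[F] M) (y : M), IsAlgebraic k y → IsAlgebraic k (a y) := fun a y hy =>
    hy.algHom ((a.restrictScalars k : M ≃ₐ[k] M) : M →ₐ[k] M)
  let G1 : Subgroup (M ≃ₐ[F] M) :=
    { carrier := {τ | IsAlgebraic k (τ γ / γ)}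
      mul_mem' := fun {a b} ha hb => by
        have e : (a * b) γ / γ = a (b γ / γ) * (a γ / γ) := by
          rw [AlgEquiv.mul_apply, map_div₀]
          have h1 : a γ ≠ 0 := by rwa [Ne, map_eq_zero]
          field_simp
        show IsAlgebraic k ((a * b) γ / γ)
        rw [e]
        exact (halg a _ hb).mul ha
      one_mem' := by
        show IsAlgebraic k ((1 : M ≃ₐ[F] M) γ / γ)
        rw [AlgEquiv.one_apply, div_self hγ]
        exact isAlgebraic_one
      inv_mem' := fun {a} ha => by
        have e : a⁻¹ γ / γ = a⁻¹ ((a γ / γ)⁻¹) := by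
          rw [inv_div, map_div₀]
          congr 1
          exact (a.symm_apply_apply γ).symm
        show IsAlgebraic k (a⁻¹ γ / γ)
        rw [e]
        exact halg a⁻¹ _ (IsAlgebraic.inv ha) }
  have hfG : Fintype G1 := Fintype.ofFinite _
  have hσG : σ ∈ G1 := by
    show IsAlgebraic k (σ γ / γ)
    rw [← hggσ]
    exact h
  have hN : ∀ ρ ∈ G1, ρ (∏ τ : G1, (τ : M ≃ₐ[F] M) γ) = ∏ τ : G1, (τ : M ≃ₐ[F] M) γ := by
    intro ρ hρ
    rw [map_prod]
    refine Fintype.prod_equiv (Equiv.mulLeft (⟨ρ, hρ⟩ : G1)) _ _ fun τ => ?_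
    rfl
  set n := Fintype.card G1 with hn
  have hn0 : 0 < n := Fintype.card_pos
  set N := ∏ τ : G1, (τ : M ≃ₐ[F] M) γ with hNdef
  set C := ∏ τ : G1, ((τ : M ≃ₐ[F] M) γ / γ) with hCdef
  have hNC : N = C * γ ^ n := by
    rw [hNdef, hCdef, Finset.prod_div_distrib, Finset.prod_const, Finset.card_univ, ← hn,
      div_mul_cancel₀ _ (pow_ne_zero n hγ)]
  have hCalg : IsAlgebraic k C :=
    Finset.prod_induction _ (IsAlgebraic k) (fun _ _ ha hb => ha.mul hb) isAlgebraic_one fun τ _ => τ.2
  have hC0 : C ≠ 0 := Finset.prod_ne_zero_iff.2 fun τ _ => div_ne_zero (by rwa [Ne, map_eq_zero]) hγ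
  have hNbot : N ∈ (⊥ : IntermediateField L M) := by
    rw [IsGalois.mem_bot_iff_fixed]
    intro τ'
    have hτ : (τ'.restrictScalars F) ∈ G1 := by
      show IsAlgebraic k ((τ'.restrictScalars F) γ / γ)
      have e : (τ'.restrictScalars F) γ = γ := by
        rw [hγdef]
        exact τ'.commutes _
      rw [e, div_self hγ]
      exact isAlgebraic_one
    exact hN _ hτ
  obtain ⟨N0, hN0⟩ := IntermediateField.mem_bot.1 hNbot
  have hCL : algebraMap L M (N0 / (g : L) ^ n) = C := by
    rw [map_div₀, map_pow, hN0, ← hγdef, hNC, mul_div_assoc, div_self (pow_ne_zero n hγ), mul_one]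
  obtain ⟨c, hc⟩ := hcl (N0 / (g : L) ^ n) (by
    rw [← hCL] at hCalg
    exact (isAlgebraic_algebraMap_iff (algebraMap L M).injective).1 hCalg)
  have hσC : σ C = C := by
    rw [← hCL, ← hc, ← IsScalarTower.algebraMap_apply, IsScalarTower.algebraMap_apply k F M]
    exact σ.commutes _
  have h1 := hN σ hσG
  rw [hNC, map_mul, hσC, map_pow] at h1
  have h2 : σ γ ^ n = γ ^ n := mul_left_cancel₀ hC0 h1
  refine ⟨n, hn0, Units.ext ?_⟩
  rw [Units.val_pow_eq_pow_val, Units.val_one, hggσ, div_pow, h2, div_self (pow_ne_zero n hγ)]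

/-- the relative theorem for intermediate fields -/
theorem rel_any {k : Type*} {L : Type u} [Field k] [CharZero k] [Algebra.IsAlgebraic ℚ k]
    [Field L] [Algebra k L] (hcl : ∀ x : L, IsAlgebraic k x → ∃ c : k, algebraMap k L c = x)
    (x : L) (hx : Transcendental k x) [FiniteDimensional k⟮x⟯ L]
    (F : IntermediateField k L) [FiniteDimensional F L] {r : ℕ} (f : Fin r → Lˣ) (D : ℕ) :
    FiniteDimensional ℚ ↥(((Submodule.span ℚ {z : KQ L 2 | ∃ (i : Fin r) (u : Fˣ),
      up F L u ∈ BsX k x D ∧ z = sy (f i) (up F L u)} ⊔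
      LinearMap.range (KQ.map 2 (algebraMap F L))) ⊓ ⨅ v ∈ VN k L, unitPart v 2).map
        (LinearMap.range (KQ.map 2 (algebraMap F L))).mkQ) := by
  have : CharZero L := charZero_of_injective_algebraMap (algebraMap k L).injective
  let Ω := AlgebraicClosure L
  have h1 : Algebra.IsAlgebraic F Ω := Algebra.IsAlgebraic.trans F L Ω
  have h2 : IsAlgClosure F Ω := ⟨inferInstance, h1⟩
  have h3 : Normal F Ω := IsAlgClosure.normal F Ω
  let M := normalClosure F L Ω
  have i2 : IsScalarTower F L M := inferInstance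
  have i3 : FiniteDimensional F M := inferInstance
  have i7 : IsScalarTower k F M := inferInstance
  have i8 : IsScalarTower k L M := IsScalarTower.of_algebraMap_eq fun x => Subtype.ext rfl
  have i4 : Normal F M := inferInstance
  have i5 : IsGalois F M := ⟨⟩
  have i6 : FiniteDimensional L M := FiniteDimensional.right F L M
  have i10 : IsGalois L M := IsGalois.tower_top_of_isGalois F L M
  have hX : Transcendental k (algebraMap L M x) := by
    intro h
    exact hx ((isAlgebraic_algebraMap_iff (algebraMap L M).injective).1 h)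
  have i9 : FiniteDimensional k⟮algebraMap L M x⟯ M := fin_up x
  refine rel_multi_all (M := M) x hX f (fun σ m hm => ?_) D
  have e : ∏ i, gg (up L M (f i)) σ ^ m i = gg (up L M (∏ i, f i ^ m i)) σ := by
    unfold gg up
    rw [map_prod, map_prod]
    simp only [map_zpow, mul_zpow, Finset.prod_mul_distrib, inv_zpow, Finset.prod_inv_distrib]
  rw [e] at hm
  rw [e]
  exact tors_of_const (k := k) hcl _ σ hm

end Pool.Agent.Helper79.HT
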