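import Pool.Agent.Helper79.HT.Plc

set_option autoImplicit false

/-!
# Finiteness of the places of bounded degree with a multiplicative relation between the values
-/

namespace Pool.Agent.Helper79.HT

open scoped WithZero IntermediateField.algebraAdjoinAdjoin
open Polynomial IntermediateField Module
open Pool.Agent.Helper259.AbsHt
open Pool.Agent.Helper79.FE (VN exists_zero finite_zeros fin_adj val_alg trans_inv)

variable {K L : Type*} [Field K] [Field L] [Algebra K L]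

/-- exchange of the variables in a relation -/
theorem swap_rel (x F : L) (R : K[X][X]) (hR0 : R ≠ 0)
    (hR : eval₂ ((aeval x : K[X] →ₐ[K] L) : K[X] →+* L) F R = 0) :
    ∃ R' : K[X][X], R' ≠ 0 ∧ (∀ k, (R'.coeff k).natDegree ≤ R.natDegree) ∧
      eval₂ ((aeval F : K[X] →ₐ[K] L) : K[X] →+* L) x R' = 0 := by
  classical
  set n := R.natDegree with hn
  set M := ∑ j ∈ Finset.range (n + 1), (R.coeff j).natDegree + 1 with hM
  have hlt : ∀ j ∈ Finset.range (n + 1), (R.coeff j).natDegree < M := by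
    intro j hj
    have := Finset.single_le_sum (f := fun j => (R.coeff j).natDegree) (fun _ _ => Nat.zero_le _) hj
    exact Nat.lt_succ_of_le this
  let c : ℕ → K[X] := fun k => ∑ j ∈ Finset.range (n + 1), monomial j ((R.coeff j).coeff k)
  have hcoef : ∀ k, (∑ k ∈ Finset.range M, monomial k (c k)).coeff k = if k < M then c k else 0 := by
    intro k
    simp only [finsetSum_coeff, coeff_monomial]
    rw [Finset.sum_ite_eq']
    simp
  refine ⟨∑ k ∈ Finset.range M, monomial k (c k), ?_, fun k => ?_, ?_⟩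
  · intro h0
    apply hR0
    ext j k
    rw [coeff_zero, coeff_zero]
    by_cases hj : j < n + 1
    · by_cases hk : k < M
      · have h1 := hcoef k
        rw [h0, coeff_zero, if_pos hk] at h1
        have h2 := congrArg (fun P : K[X] => P.coeff j) h1
        simp only [coeff_zero, c, finsetSum_coeff, coeff_monomial] at h2
        rw [Finset.sum_ite_eq', if_pos (Finset.mem_range.2 hj)] at h2
        exact h2.symm
      · exact coeff_eq_zero_of_natDegree_lt (lt_of_lt_of_le (hlt j (Finset.mem_range.2 hj)) (not_lt.1 hk))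
    · have h1 : R.coeff j = 0 := coeff_eq_zero_of_natDegree_lt (by omega)
      rw [h1, coeff_zero]
  · rw [hcoef]
    split_ifs
    · refine natDegree_sum_le_of_forall_le _ _ fun j hj => ?_
      exact (natDegree_monomial_le _).trans (Nat.lt_succ_iff.1 (Finset.mem_range.1 hj))
    · simp
  · rw [eval₂_finsetSum]
    have h1 : ∀ k, eval₂ ((aeval F : K[X] →ₐ[K] L) : K[X] →+* L) x (monomial k (c k)) =
        ∑ j ∈ Finset.range (n + 1), algebraMap K L ((R.coeff j).coeff k) * F ^ j * x ^ k := by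
      intro k
      rw [eval₂_monomial, AlgHom.coe_toRingHom, map_sum, Finset.sum_mul]
      refine Finset.sum_congr rfl fun j _ => ?_
      rw [aeval_monomial]
    rw [Finset.sum_congr rfl fun k _ => h1 k, Finset.sum_comm]
    rw [eval₂_eq_sum_range, ← hn] at hR
    rw [← hR]
    refine Finset.sum_congr rfl fun j hj => ?_
    rw [AlgHom.coe_toRingHom, aeval_eq_sum_range' (hlt j hj), Finset.sum_mul]
    refine Finset.sum_congr rfl fun k _ => ?_
    rw [Algebra.smul_def]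
    ring

/-- Northcott's theorem for the places -/
theorem north [NumberField K] (σ : K →+* Qbar) (x : L) (hx : Transcendental K x) [FiniteDimensional K⟮x⟯ L]
    (D : ℕ) (B : ℝ) : {v : Valuation L ℤᵐ⁰ | ∃ (hv : v ∈ VN K L) (hx1 : x ∈ v.valuationSubring) (p : Plc σ hv),
      DegLE K D v ∧ Hh (p.ρ ⟨x, hx1⟩) ≤ B}.Finite := by
  classical
  let _ : Algebra K Qbar := σ.toAlgebra
  have hfin := Pool.Agent.H58W.northcott (D * finrank ℚ K) B
  refine Set.Finite.subset (hfin.biUnion (t := fun β => {v ∈ VN K L | v (aeval x (minpoly K β)) < 1})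
    fun β hβ => ?_) ?_
  · refine zeros_fin x hx _ fun h0 => ?_
    by_cases hint : IsIntegral K β
    · exact hx ⟨_, minpoly.ne_zero hint, h0⟩
    · apply hint
      exact ((AlgebraicClosure.isAlgebraic ℚ).isAlgebraic β).isIntegral.tower_top
  · rintro v ⟨hv, hx1, p, hD, hB⟩
    set β := p.ρ ⟨x, hx1⟩ with hβ
    have hint : IsIntegral K β := ((AlgebraicClosure.isAlgebraic ℚ).isAlgebraic β).isIntegral.tower_top
    have hmain : ∀ Q : K[X], aeval β Q = 0 ↔ v (aeval x Q) < 1 := by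
      intro Q
      have h1 := plc_aeval p ⟨x, hx1⟩ Q (aeval_mem hv ⟨x, hx1⟩ Q)
      have h2 := p.ker ⟨_, aeval_mem hv ⟨x, hx1⟩ Q⟩
      rw [h1] at h2
      exact h2
    rw [Set.mem_iUnion₂]
    refine ⟨β, ⟨?_, hB⟩, hv, (hmain _).1 (minpoly.aeval K β)⟩
    obtain ⟨Q, hQ, hQD, h1⟩ := hD x hx1
    have h2 : (minpoly K β).natDegree ≤ D :=
      (natDegree_le_natDegree (minpoly.min K β hQ ((hmain Q).2 h1))).trans hQD
    have hfd : FiniteDimensional K K⟮β⟯ := adjoin.finiteDimensional hint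
    have h3 : finrank K K⟮β⟯ ≤ D := by rw [adjoin.finrank hint]; exact h2
    have hfd2 : FiniteDimensional ℚ K⟮β⟯ := FiniteDimensional.trans ℚ K K⟮β⟯
    have h4 : (minpoly ℚ (AdjoinSimple.gen K β)).natDegree ≤ finrank ℚ K⟮β⟯ := minpoly.natDegree_le _
    have h5 : minpoly ℚ (AdjoinSimple.gen K β) = minpoly ℚ β := by
      rw [← minpoly.algebraMap_eq (algebraMap K⟮β⟯ Qbar).injective, AdjoinSimple.algebraMap_gen]
    rw [h5, ← Module.finrank_mul_finrank ℚ K K⟮β⟯] at h4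
    refine h4.trans ?_
    rw [mul_comm D]
    exact Nat.mul_le_mul_left _ h3

/-- finiteness of the places of bounded degree with a multiplicative relation -/
theorem T_finite [NumberField K] (x : L) (hx : Transcendental K x) [FiniteDimensional K⟮x⟯ L] {r : ℕ}
    (f : Fin r → Lˣ) (hf : ∀ m : Fin r → ℤ, IsAlgebraic K ((∏ i, f i ^ m i : Lˣ) : L) → m = 0) (D : ℕ) :
    {v : Valuation L ℤᵐ⁰ | v ∈ VN K L ∧ DegLE K D v ∧ (∀ i, v (f i : L) = 1) ∧
      ∃ (m : Fin r → ℤ) (k : ℕ), m ≠ 0 ∧ 0 < k ∧ v (((∏ i, f i ^ m i : Lˣ) : L) ^ k - 1) < 1}.Finite := by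
  classical
  let σ : K →+* Qbar := (IsAlgClosed.lift : K →ₐ[ℚ] Qbar)
  set n := finrank K⟮x⟯ L with hn
  -- the upper bounds
  have hup : ∀ i, ∃ (C : ℝ) (N : ℕ) (Z : Set (Valuation L ℤᵐ⁰)), 0 ≤ C ∧ Z.Finite ∧
      ∀ (v : Valuation L ℤᵐ⁰) (hv : v ∈ VN K L), v ∉ Z →
      ∀ (p : Plc σ hv) (ha1 : (f i : L) ∈ v.valuationSubring) (hb1 : x ∈ v.valuationSubring),
        Hh (p.ρ ⟨(f i : L), ha1⟩) ≤ C + N * Hh (p.ρ ⟨x, hb1⟩) := by
    intro i
    obtain ⟨R, hR0, -, hR⟩ := exists_rel (K := K) x (f i : L)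
    obtain ⟨C, Z, hC, hZ, h⟩ := rel_ht σ x hx (f i : L) x hx R hR0 hR
      (∑ j ∈ Finset.range (R.natDegree + 1), (R.coeff j).natDegree) (fun j => by
        by_cases hj : j < R.natDegree + 1
        · exact Finset.single_le_sum (f := fun j => (R.coeff j).natDegree) (fun _ _ => Nat.zero_le _)
            (Finset.mem_range.2 hj)
        · rw [coeff_eq_zero_of_natDegree_lt (by omega), natDegree_zero]
          exact Nat.zero_le _)
    exact ⟨C, _, Z, hC, hZ, h⟩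
  choose Cu Nu Zu hCu hZu hup using hup
  obtain ⟨Q, hQ⟩ := bmz r (∑ i, Cu i) (∑ i, (Nu i : ℝ)) n (Finset.sum_nonneg fun i _ => hCu i)
    (Finset.sum_nonneg fun i _ => Nat.cast_nonneg _) (Nat.cast_nonneg _)
  -- the lower bounds
  have hlow : ∀ a : Fin r → ℤ, a ≠ 0 → ∃ (C : ℝ) (Z : Set (Valuation L ℤᵐ⁰)), 0 ≤ C ∧ Z.Finite ∧
      ∀ (v : Valuation L ℤᵐ⁰) (hv : v ∈ VN K L), v ∉ Z →
      ∀ (p : Plc σ hv) (ha1 : x ∈ v.valuationSubring)
        (hb1 : ((∏ i, f i ^ a i : Lˣ) : L) ∈ v.valuationSubring),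
        Hh (p.ρ ⟨x, ha1⟩) ≤ C + n * Hh (p.ρ ⟨((∏ i, f i ^ a i : Lˣ) : L), hb1⟩) := by
    intro a ha
    obtain ⟨R, hR0, hRn, hR⟩ := exists_rel (K := K) x ((∏ i, f i ^ a i : Lˣ) : L)
    obtain ⟨R', hR'0, hR'n, hR'⟩ := swap_rel x _ R hR0 hR
    exact rel_ht σ x hx x _ (fun h => ha (hf a h)) R' hR'0 hR' n fun k => (hR'n k).trans hRn
  choose! Cl Zl hCl hZl hlow using hlow
  -- the box
  have hbox : {a : Fin r → ℤ | a ≠ 0 ∧ ∀ i, |a i| ≤ Q}.Finite := by
    refine Set.Finite.subset (Set.Finite.pi' (t := fun _ : Fin r => Set.Icc (-(Q : ℤ)) Q)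
      fun _ => Set.finite_Icc _ _) ?_
    rintro a ⟨-, h⟩ i
    exact abs_le.1 (h i)
  obtain ⟨Ca, hCa⟩ : ∃ Ca : ℝ, ∀ a ∈ {a : Fin r → ℤ | a ≠ 0 ∧ ∀ i, |a i| ≤ Q}, Cl a ≤ Ca := by
    obtain ⟨Ca, h⟩ := (hbox.image Cl).bddAbove
    exact ⟨Ca, fun a ha => h ⟨a, ha, rfl⟩⟩
  obtain ⟨B, hB⟩ := hQ Ca
  -- the finite sets
  have hxinv : {v ∈ VN K L | v x⁻¹ < 1}.Finite := zeros_fin x hx _ (inv_ne_zero (by
    rintro rfl
    exact hx isAlgebraic_zero))
  refine Set.Finite.subset ((hxinv.union (Set.finite_iUnion hZu)).union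
    ((hbox.biUnion fun a ha => hZl a ha.1).union (north σ x hx D B))) ?_
  rintro v ⟨hv, hD, hf1, m, k, hm, hk, hmk⟩
  by_contra hcon
  simp only [Set.mem_union, not_or] at hcon
  obtain ⟨⟨h1, h2⟩, h3, h4⟩ := hcon
  have hx1 : x ∈ v.valuationSubring := by
    show v x ≤ 1
    by_contra hlt
    apply h1
    refine ⟨hv, ?_⟩
    rw [map_inv₀]
    exact inv_lt_one_of_one_lt₀ (not_le.1 hlt)
  obtain ⟨p⟩ := exists_plc σ hv hD
  have hfm : ∀ i, (f i : L) ∈ v.valuationSubring := fun i => (hf1 i).le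
  have hprod1 : ∀ a : Fin r → ℤ, v ((∏ i, f i ^ a i : Lˣ) : L) = 1 := by
    intro a
    rw [Units.coe_prod, map_prod]
    refine Finset.prod_eq_one fun i _ => ?_
    rw [Units.val_zpow_eq_zpow_val, map_zpow₀, hf1 i, one_zpow]
  have hρne : ∀ i, p.ρ ⟨(f i : L), hfm i⟩ ≠ 0 := by
    intro i h0
    rw [p.ker] at h0
    exact absurd (hf1 i) h0.ne
  -- values of the products
  have hinv : ∀ i, ((f i : L)⁻¹) ∈ v.valuationSubring := by
    intro i
    show v ((f i : L)⁻¹) ≤ 1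
    rw [map_inv₀, hf1 i, inv_one]
  let u : Fin r → v.valuationSubringˣ := fun i =>
    ⟨⟨(f i : L), hfm i⟩, ⟨(f i : L)⁻¹, hinv i⟩, Subtype.ext (mul_inv_cancel₀ (f i).ne_zero),
      Subtype.ext (inv_mul_cancel₀ (f i).ne_zero)⟩
  have hu : ∀ i, Units.map (v.valuationSubring.subtype : v.valuationSubring →* L) (u i) = f i := fun i => Units.ext rfl
  have hρprod : ∀ (a : Fin r → ℤ) (h : ((∏ i, f i ^ a i : Lˣ) : L) ∈ v.valuationSubring),
      p.ρ ⟨((∏ i, f i ^ a i : Lˣ) : L), h⟩ = ∏ i, (p.ρ ⟨(f i : L), hfm i⟩) ^ a i := by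
    intro a h
    have e1 : (⟨((∏ i, f i ^ a i : Lˣ) : L), h⟩ : v.valuationSubring) = ((∏ i, u i ^ a i : v.valuationSubringˣ) : v.valuationSubring) := by
      apply Subtype.ext
      have e2 : Units.map (v.valuationSubring.subtype : v.valuationSubring →* L) (∏ i, u i ^ a i) = ∏ i, f i ^ a i := by
        rw [map_prod]
        refine Finset.prod_congr rfl fun i _ => ?_
        rw [map_zpow, hu]
      exact (congrArg Units.val e2).symm
    rw [e1]
    have e3 : p.ρ ((∏ i, u i ^ a i : v.valuationSubringˣ) : v.valuationSubring) =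
        ((Units.map (p.ρ : v.valuationSubring →* Qbar) (∏ i, u i ^ a i) : Qbarˣ) : Qbar) := rfl
    rw [e3, map_prod, Units.coe_prod]
    refine Finset.prod_congr rfl fun i _ => ?_
    rw [map_zpow, Units.val_zpow_eq_zpow_val]
    rfl
  apply h4
  refine ⟨hv, hx1, p, hD, hB (p.ρ ⟨x, hx1⟩) (fun i => p.ρ ⟨(f i : L), hfm i⟩) hρne (fun i => ?_)
    (fun a ha haQ => ?_) m k hm hk ?_⟩
  · have h5 := hup i v hv (fun h => h2 (Set.mem_iUnion.2 ⟨i, h⟩)) p (hfm i) hx1
    refine h5.trans (add_le_add ?_ (mul_le_mul_of_nonneg_right ?_ (Hh_nonneg _)))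
    · exact Finset.single_le_sum (fun i _ => hCu i) (Finset.mem_univ i)
    · exact Finset.single_le_sum (f := fun i => (Nu i : ℝ)) (fun i _ => Nat.cast_nonneg _) (Finset.mem_univ i)
  · have h5 := hlow a ha v hv (fun h => h3 (Set.mem_iUnion₂.2 ⟨a, ⟨ha, haQ⟩, h⟩)) p hx1 (hprod1 a).le
    have h7 : p.ρ ⟨((∏ i, f i ^ a i : Lˣ) : L), (hprod1 a).le⟩ = ∏ i, (p.ρ ⟨(f i : L), hfm i⟩) ^ a i :=
      hρprod a (hprod1 a).le
    have h6 := hCa a ⟨ha, haQ⟩
    rw [← h7]
    linarith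
  · have hmem : ((∏ i, f i ^ m i : Lˣ) : L) ^ k - 1 ∈ v.valuationSubring := hmk.le
    have h5 := (p.ker ⟨_, hmem⟩).2 hmk
    have h6 : (⟨((∏ i, f i ^ m i : Lˣ) : L) ^ k - 1, hmem⟩ : v.valuationSubring) =
        ⟨((∏ i, f i ^ m i : Lˣ) : L), (hprod1 m).le⟩ ^ k - 1 := rfl
    have h7 : p.ρ ⟨((∏ i, f i ^ m i : Lˣ) : L), (hprod1 m).le⟩ = ∏ i, (p.ρ ⟨(f i : L), hfm i⟩) ^ m i :=
      hρprod m (hprod1 m).le
    rw [h6, map_sub, map_pow, map_one, sub_eq_zero] at h5
    rw [← h7]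
    exact h5

end Pool.Agent.Helper79.HT
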